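import Pool.Agent.Helper92.AM.Weight

set_option autoImplicit false

/-!
# Boolean functions: influences as numbers of edges
-/

namespace Pool.Agent.Helper92.AM

open Finset
open Pool.Agent.H637R3.UC

variable {n : ℕ}

/-- Change of the coordinate `i`. -/
def flip (x : Fin n → Bool) (i : Fin n) : Fin n → Bool := Function.update x i (!x i)

theorem flip_flip (x : Fin n → Bool) (i : Fin n) : flip (flip x i) i = x := by
  unfold flip
  simp

theorem flip_self (x : Fin n → Bool) (i : Fin n) : flip x i i = !x i := by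
  unfold flip
  simp

/-- The point with the support `A`. -/
def vec (A : Finset (Fin n)) : Fin n → Bool := fun i => decide (i ∈ A)

/-- Subsets and points. -/
def vecEquiv : Finset (Fin n) ≃ (Fin n → Bool) where
  toFun := vec
  invFun x := univ.filter fun i => x i = true
  left_inv A := by ext i; simp [vec]
  right_inv x := by funext i; simp [vec]

theorem sum_vec (φ : (Fin n → Bool) → ℝ) : ∑ x, φ x = ∑ A, φ (vec A) :=
  (Fintype.sum_equiv vecEquiv (fun A => φ (vec A)) φ fun _ => rfl).symm

theorem sum_flip (φ : (Fin n → Bool) → ℝ) (i : Fin n) : ∑ x, φ (flip x i) = ∑ x, φ x :=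
  Fintype.sum_equiv ⟨fun x => flip x i, fun x => flip x i, fun x => flip_flip x i,
    fun x => flip_flip x i⟩ _ _ fun _ => rfl

/-- The sign of a truth value: `1` for true and `-1` for false. -/
def pm (b : Bool) : ℝ := if b then 1 else -1

/-- The function on sets. -/
def sf (f : (Fin n → Bool) → Bool) (A : Finset (Fin n)) : ℝ := pm (f (vec A))

theorem pm_sq (b : Bool) : pm b ^ 2 = 1 := by cases b <;> norm_num [pm]

theorem sf_sq (f : (Fin n → Bool) → Bool) (A : Finset (Fin n)) : sf f A ^ 2 = 1 := pm_sq _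

theorem av_vec (φ : (Fin n → Bool) → ℝ) : av (fun A => φ (vec A)) = (∑ x, φ x) / 2 ^ n := by
  unfold av
  rw [sum_vec, Fintype.card_fin]

theorem vec_symm (A : Finset (Fin n)) (i : Fin n) : vec (symmDiff A {i}) = flip (vec A) i := by
  funext j
  unfold vec flip
  rw [Function.update_apply]
  by_cases h : j = i
  · subst h
    by_cases h2 : j ∈ A <;> simp [Finset.mem_symmDiff, h2]
  · rw [if_neg h]
    by_cases h2 : j ∈ A <;> simp [Finset.mem_symmDiff, h2, h]

theorem infl_sf (f : (Fin n → Bool) → Bool) (i : Fin n) :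
    infl (sf f) i = (∑ x, if f x ≠ f (flip x i) then (1 : ℝ) else 0) / 2 ^ n := by
  have h1 := av_dd_sq (sf f) i
  have h2 : (fun A => dd i (sf f) A ^ 2) =
      fun A => (fun x => (pm (f x) - pm (f (flip x i))) ^ 2) (vec A) := by
    funext A
    rw [dd_sq_pt]
    simp only [sf, vec_symm]
  rw [h2, av_vec (fun x => (pm (f x) - pm (f (flip x i))) ^ 2)] at h1
  have h3 : ∀ x : Fin n → Bool, (pm (f x) - pm (f (flip x i))) ^ 2 =
      4 * (if f x ≠ f (flip x i) then (1 : ℝ) else 0) := by
    intro x
    cases f x <;> cases f (flip x i) <;> norm_num [pm]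
  simp_rw [h3] at h1
  rw [← Finset.mul_sum, mul_div_assoc] at h1
  linarith

/-- The probability that the coordinate `i` of a random point `x` with `f x = 1` has the wrong sign
and its change destroys `f x = 1`. -/
noncomputable def bad (σ : Fin n → Bool) (f : (Fin n → Bool) → Bool) (i : Fin n) : ℝ :=
  (∑ x : Fin n → Bool, if x i ≠ σ i ∧ f x = true ∧ f (flip x i) = false then (1 : ℝ) else 0) / 2 ^ n

theorem bad_nonneg (σ : Fin n → Bool) (f : (Fin n → Bool) → Bool) (i : Fin n) : 0 ≤ bad σ f i :=
  div_nonneg (Finset.sum_nonneg fun x _ => by split_ifs <;> norm_num) (by positivity)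

theorem infl_eq (σ : Fin n → Bool) (f : (Fin n → Bool) → Bool) (i : Fin n) :
    infl (sf f) i = (∑ x, pm (f x) * (if x i = σ i then 1 else -1)) / 2 ^ n + 4 * bad σ f i := by
  rw [infl_sf, bad, ← mul_div_assoc, ← add_div]
  congr 1
  set τ : (Fin n → Bool) → ℝ := fun x => if x i = σ i then 1 else -1 with hτ
  set b : (Fin n → Bool) → ℝ := fun x =>
    if x i ≠ σ i ∧ f x = true ∧ f (flip x i) = false then (1 : ℝ) else 0 with hb
  have h1 : ∀ x : Fin n → Bool, (if f x ≠ f (flip x i) then (1 : ℝ) else 0) =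
      1 / 2 * (pm (f x) * τ x + pm (f (flip x i)) * τ (flip x i)) + (2 * b x + 2 * b (flip x i)) := by
    intro x
    simp only [hτ, hb, flip_flip, flip_self]
    cases f x <;> cases f (flip x i) <;> cases x i <;> cases σ i <;> norm_num [pm]
  simp_rw [h1]
  rw [Finset.sum_add_distrib, ← Finset.mul_sum, Finset.sum_add_distrib, Finset.sum_add_distrib,
    sum_flip (fun x => pm (f x) * τ x) i, ← Finset.mul_sum, ← Finset.mul_sum, sum_flip b i]
  ring

theorem cf_sf (f : (Fin n → Bool) → Bool) (S : Finset (Fin n)) :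
    cf (sf f) S = (∑ x, pm (f x) * ∏ i ∈ S, (if x i then -1 else 1)) / 2 ^ n := by
  rw [cf_eq, ← av_vec (fun x => pm (f x) * ∏ i ∈ S, (if x i then -1 else 1))]
  congr 1
  funext A
  simp only [sf, sg, sg1, vec, decide_eq_true_eq]

theorem sign_sum (σ : Fin n → Bool) (f : (Fin n → Bool) → Bool) (i : Fin n) :
    (∑ x, pm (f x) * (if x i = σ i then 1 else -1)) / 2 ^ n =
      (if σ i then -1 else 1) * cf (sf f) {i} := by
  rw [cf_sf, ← mul_div_assoc, Finset.mul_sum]
  congr 1
  refine Finset.sum_congr rfl fun x _ => ?_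
  rw [Finset.prod_singleton]
  cases x i <;> cases σ i <;> norm_num

theorem infl_le (σ : Fin n → Bool) (f : (Fin n → Bool) → Bool) (i : Fin n) :
    infl (sf f) i ≤ |cf (sf f) {i}| + 2 * (2 * bad σ f i) := by
  rw [infl_eq σ, sign_sum]
  have h1 : (if σ i then (-1 : ℝ) else 1) * cf (sf f) {i} ≤ |cf (sf f) {i}| := by
    split_ifs
    · rw [neg_one_mul]
      exact neg_le_abs _
    · rw [one_mul]
      exact le_abs_self _
  linarith

end Pool.Agent.Helper92.AM
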