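import Mathlib

set_option autoImplicit false

/-!
# Concentration of sums of independent bounded variables, as a count
-/

namespace Pool.Agent.Helper92.AM

open Finset

variable {X : Type} [Fintype X] [Nonempty X]

theorem mgf_le (v : X → ℝ) (hv : ∀ x, |v x| ≤ 1) (μ : ℝ) (hμ : μ * Fintype.card X = ∑ x, v x)
    (l : ℝ) (hl0 : 0 ≤ l) (hl : l ≤ 1 / 2) :
    ∑ x, Real.exp (l * (v x - μ)) ≤ Fintype.card X * Real.exp (l ^ 2) := by
  have hX : (0 : ℝ) < Fintype.card X := by exact_mod_cast Fintype.card_pos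
  have hμ1 : |μ| ≤ 1 := by
    have h1 : |μ| * Fintype.card X ≤ Fintype.card X := by
      rw [← abs_of_pos hX, ← abs_mul, hμ, abs_of_pos hX]
      calc |∑ x, v x| ≤ ∑ x, |v x| := Finset.abs_sum_le_sum_abs _ _
        _ ≤ ∑ _x : X, (1 : ℝ) := Finset.sum_le_sum fun x _ => hv x
        _ = Fintype.card X := by simp
    nlinarith
  have h1 : ∀ x, Real.exp (l * (v x - μ)) ≤ 1 + l * (v x - μ) + (l * (v x - μ)) ^ 2 := by
    intro x
    have h2 : |l * (v x - μ)| ≤ 1 := by
      rw [abs_mul, abs_of_nonneg hl0]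
      have h3 : |v x - μ| ≤ 2 := (abs_sub _ _).trans (by linarith [hv x])
      nlinarith [abs_nonneg (v x - μ)]
    have h3 := Real.abs_exp_sub_one_sub_id_le h2
    have h4 := le_abs_self (Real.exp (l * (v x - μ)) - 1 - l * (v x - μ))
    linarith
  have h2 : ∑ x, (1 + l * (v x - μ) + (l * (v x - μ)) ^ 2) ≤ Fintype.card X * (1 + l ^ 2) := by
    have e1 : ∑ x, (1 + l * (v x - μ) + (l * (v x - μ)) ^ 2) =
        Fintype.card X + l * (∑ x, v x - Fintype.card X * μ) +
          l ^ 2 * (∑ x, v x ^ 2 - 2 * μ * ∑ x, v x + Fintype.card X * μ ^ 2) := by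
      have : ∀ x, (1 + l * (v x - μ) + (l * (v x - μ)) ^ 2) =
          1 + (l * v x - l * μ) + (l ^ 2 * v x ^ 2 - l ^ 2 * (2 * μ) * v x + l ^ 2 * μ ^ 2) :=
        fun x => by ring
      simp_rw [this]
      simp only [Finset.sum_add_distrib, Finset.sum_sub_distrib, ← Finset.mul_sum,
        Finset.sum_const, Finset.card_univ, nsmul_eq_mul]
      ring
    rw [e1, ← hμ]
    have e2 : ∑ x, v x ^ 2 ≤ Fintype.card X := by
      calc ∑ x, v x ^ 2 ≤ ∑ _x : X, (1 : ℝ) := Finset.sum_le_sum fun x _ => by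
            have := hv x
            rw [← sq_abs]
            nlinarith [abs_nonneg (v x)]
        _ = Fintype.card X := by simp
    have e3 : 0 ≤ μ ^ 2 * Fintype.card X := by positivity
    have e4 : 0 ≤ l ^ 2 := sq_nonneg _
    nlinarith [mul_nonneg e4 e3, mul_le_mul_of_nonneg_left e2 e4]
  calc ∑ x, Real.exp (l * (v x - μ)) ≤ ∑ x, (1 + l * (v x - μ) + (l * (v x - μ)) ^ 2) :=
        Finset.sum_le_sum fun x _ => h1 x
    _ ≤ Fintype.card X * (1 + l ^ 2) := h2
    _ ≤ Fintype.card X * Real.exp (l ^ 2) := by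
        have := Real.add_one_le_exp (l ^ 2)
        exact mul_le_mul_of_nonneg_left (by linarith) hX.le

theorem upper_tail (v : X → ℝ) (hv : ∀ x, |v x| ≤ 1) (μ : ℝ)
    (hμ : μ * Fintype.card X = ∑ x, v x) (η : ℝ) (h0 : 0 ≤ η) (h1 : η ≤ 1) (m : ℕ) :
    ((univ.filter fun x : Fin m → X => m * η < ∑ j, (v (x j) - μ)).card : ℝ) ≤
      (Fintype.card X : ℝ) ^ m * Real.exp (-(m * η ^ 2 / 4)) := by
  classical
  set l : ℝ := η / 2 with hl
  have h2 : ∑ x : Fin m → X, Real.exp (l * ∑ j, (v (x j) - μ)) ≤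
      ((Fintype.card X : ℝ) * Real.exp (l ^ 2)) ^ m := by
    have h3 : ∀ x : Fin m → X, Real.exp (l * ∑ j, (v (x j) - μ)) =
        ∏ j, Real.exp (l * (v (x j) - μ)) := by
      intro x
      rw [Finset.mul_sum, Real.exp_sum]
    simp_rw [h3]
    rw [← Fintype.sum_pow (fun x => Real.exp (l * (v x - μ))) m]
    exact pow_le_pow_left₀ (Finset.sum_nonneg fun x _ => (Real.exp_pos _).le)
      (mgf_le v hv μ hμ l (by positivity) (by rw [hl]; linarith)) m
  have h3 : ((univ.filter fun x : Fin m → X => m * η < ∑ j, (v (x j) - μ)).card : ℝ) *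
      Real.exp (l * (m * η)) ≤ ∑ x : Fin m → X, Real.exp (l * ∑ j, (v (x j) - μ)) := by
    calc ((univ.filter fun x : Fin m → X => m * η < ∑ j, (v (x j) - μ)).card : ℝ) *
        Real.exp (l * (m * η)) = ∑ x ∈ univ.filter fun x : Fin m → X =>
          m * η < ∑ j, (v (x j) - μ), Real.exp (l * (m * η)) := by simp
      _ ≤ ∑ x ∈ univ.filter fun x : Fin m → X => m * η < ∑ j, (v (x j) - μ),
          Real.exp (l * ∑ j, (v (x j) - μ)) := by
          refine Finset.sum_le_sum fun x hx => ?_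
          simp only [Finset.mem_filter, Finset.mem_univ, true_and] at hx
          exact Real.exp_le_exp.2 (mul_le_mul_of_nonneg_left hx.le (by positivity))
      _ ≤ _ := Finset.sum_le_sum_of_subset_of_nonneg (Finset.subset_univ _)
          fun x _ _ => (Real.exp_pos _).le
  have h4 := h3.trans h2
  rw [mul_pow, ← Real.exp_nat_mul] at h4
  have h5 : 0 < Real.exp (l * (m * η)) := Real.exp_pos _
  rw [← le_div_iff₀ h5, mul_div_assoc, ← Real.exp_sub] at h4
  refine h4.trans (le_of_eq ?_)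
  congr 2
  rw [hl]
  ring

/-- Both tails. -/
theorem two_tails (v : X → ℝ) (hv : ∀ x, |v x| ≤ 1) (μ : ℝ)
    (hμ : μ * Fintype.card X = ∑ x, v x) (η : ℝ) (h0 : 0 ≤ η) (h1 : η ≤ 1) (m : ℕ) :
    ((univ.filter fun x : Fin m → X => m * η < |∑ j, v (x j) - m * μ|).card : ℝ) ≤
      2 * ((Fintype.card X : ℝ) ^ m * Real.exp (-(m * η ^ 2 / 4))) := by
  classical
  have a1 := upper_tail v hv μ hμ η h0 h1 m
  have a2 := upper_tail (fun x => - v x) (fun x => by rw [abs_neg]; exact hv x) (-μ)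
    (by rw [neg_mul, hμ, Finset.sum_neg_distrib]) η h0 h1 m
  have h2 : (univ.filter fun x : Fin m → X => m * η < |∑ j, v (x j) - m * μ|) ⊆
      (univ.filter fun x : Fin m → X => m * η < ∑ j, (v (x j) - μ)) ∪
      (univ.filter fun x : Fin m → X => m * η < ∑ j, (- v (x j) - -μ)) := by
    intro x hx
    simp only [Finset.mem_filter, Finset.mem_univ, true_and, Finset.mem_union] at hx ⊢
    rw [lt_abs] at hx
    rcases hx with hx | hx
    · left
      rw [Finset.sum_sub_distrib]
      simpa using hx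
    · right
      rw [Finset.sum_sub_distrib, Finset.sum_neg_distrib]
      simp only [Finset.sum_const, Finset.card_univ, Fintype.card_fin, nsmul_eq_mul]
      linarith
  have h3 := Finset.card_le_card h2
  have h4 := h3.trans (Finset.card_union_le _ _)
  have h5 : ((univ.filter fun x : Fin m → X => m * η < |∑ j, v (x j) - m * μ|).card : ℝ) ≤
      ((univ.filter fun x : Fin m → X => m * η < ∑ j, (v (x j) - μ)).card : ℝ) +
      ((univ.filter fun x : Fin m → X => m * η < ∑ j, (- v (x j) - -μ)).card : ℝ) := by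
    exact_mod_cast h4
  linarith

end Pool.Agent.Helper92.AM
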