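import Pool.Agent.Helper92.AM.Learn
import Pool.Agent.Helper92.AM.Hoeff

set_option autoImplicit false

/-!
# The learner is correct if the empirical coefficients are
-/

namespace Pool.Agent.Helper92.AM

open Finset
open Pool.Agent.H637R3.UC

variable {n : ℕ}

/-! ### Potential -/

/-- The weight inside `R`. -/
noncomputable def pot (f : (Fin n → Bool) → Bool) (R : Finset (Fin n)) : ℝ :=
  ∑ S ∈ R.powerset, cf (sf f) S ^ 2

theorem cf_sum_one (f : (Fin n → Bool) → Bool) : ∑ S, cf (sf f) S ^ 2 = 1 := by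
  rw [cf_parseval]
  simp_rw [sf_sq]
  exact av_const 1

theorem pot_nonneg (f : (Fin n → Bool) → Bool) (R : Finset (Fin n)) : 0 ≤ pot f R :=
  Finset.sum_nonneg fun _ _ => sq_nonneg _

theorem pot_le (f : (Fin n → Bool) → Bool) (R : Finset (Fin n)) : pot f R ≤ 1 := by
  rw [← cf_sum_one f]
  exact Finset.sum_le_sum_of_subset_of_nonneg (Finset.subset_univ _) fun _ _ _ => sq_nonneg _

theorem cf_abs_le (f : (Fin n → Bool) → Bool) (S : Finset (Fin n)) : |cf (sf f) S| ≤ 1 := by
  rw [← Real.sqrt_one]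
  refine Real.abs_le_sqrt ?_
  rw [← cf_sum_one f]
  exact Finset.single_le_sum (f := fun S => cf (sf f) S ^ 2) (fun _ _ => sq_nonneg _)
    (Finset.mem_univ S)

theorem pot_union (f : (Fin n → Bool) → Bool) (R T : Finset (Fin n)) (D : ℕ) (hd : Disjoint T R)
    (hT : T.Nonempty) : pot f R + ∑ U ∈ R.powerset.filter (fun U => U.card ≤ D),
      cf (sf f) (U ∪ T) ^ 2 ≤ pot f (T ∪ R) := by
  unfold pot
  have h1 : ∑ U ∈ R.powerset.filter (fun U => U.card ≤ D), cf (sf f) (U ∪ T) ^ 2 =
      ∑ S ∈ (R.powerset.filter (fun U => U.card ≤ D)).image (fun U => U ∪ T),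
        cf (sf f) S ^ 2 := by
    rw [Finset.sum_image]
    intro U hU V hV h
    simp only [Finset.coe_filter, Finset.mem_powerset, Set.mem_ofPred_eq] at hU hV
    have e : ∀ U : Finset (Fin n), U ⊆ R → (U ∪ T) \ T = U := by
      intro U hU
      rw [Finset.union_sdiff_right, Finset.sdiff_eq_self_iff_disjoint]
      exact (Finset.disjoint_of_subset_right hU hd).symm
    have h2 : (U ∪ T) \ T = (V ∪ T) \ T := by
      simp only at h
      rw [h]
    rwa [e U hU.1, e V hV.1] at h2
  rw [h1, ← Finset.sum_union]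
  · refine Finset.sum_le_sum_of_subset_of_nonneg ?_ fun _ _ _ => sq_nonneg _
    intro S hS
    simp only [Finset.mem_union, Finset.mem_powerset, Finset.mem_image, Finset.mem_filter] at hS ⊢
    rcases hS with hS | ⟨U, hU, rfl⟩
    · exact hS.trans Finset.subset_union_right
    · exact Finset.union_subset (hU.1.trans Finset.subset_union_right) Finset.subset_union_left
  · rw [Finset.disjoint_left]
    intro S hS hS'
    simp only [Finset.mem_powerset, Finset.mem_image, Finset.mem_filter] at hS hS'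
    obtain ⟨U, _, rfl⟩ := hS'
    obtain ⟨i, hi⟩ := hT
    exact (Finset.disjoint_left.1 hd hi) (hS (Finset.mem_union_right _ hi))

theorem sq_close {a b η : ℝ} (h : |a - b| ≤ η) (hb : |b| ≤ 1) (hη : η ≤ 1) :
    |a ^ 2 - b ^ 2| ≤ 3 * η := by
  have h1 : a ^ 2 - b ^ 2 = (a - b) * ((a - b) + 2 * b) := by ring
  have h0 : 0 ≤ η := (abs_nonneg _).trans h
  rw [h1, abs_mul]
  have h2 : |a - b + 2 * b| ≤ 3 := by
    calc |a - b + 2 * b| ≤ |a - b| + |2 * b| := abs_add_le _ _
      _ ≤ 3 := by rw [abs_mul, abs_two]; linarith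
  calc |a - b| * |a - b + 2 * b| ≤ η * 3 := mul_le_mul h h2 (abs_nonneg _) h0
    _ = 3 * η := by ring

/-- All small empirical coefficients are good. -/
def Good {m : ℕ} (f : (Fin n → Bool) → Bool) (x : Fin m → Fin n → Bool) (K : ℕ) (η : ℝ) : Prop :=
  ∀ S : Finset (Fin n), S.card ≤ K → |emp f x S - cf (sf f) S| ≤ η

theorem sum_close {m : ℕ} {f : (Fin n → Bool) → Bool} {x : Fin m → Fin n → Bool} {D k W : ℕ}
    {η : ℝ} (hg : Good f x (D + k) η) (hη : η ≤ 1) (h0 : 0 ≤ η) {R T : Finset (Fin n)}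
    (hT : T.card ≤ k) (hW : (R.card + 1) ^ D ≤ W) :
    |∑ U ∈ R.powerset.filter (fun U => U.card ≤ D), emp f x (U ∪ T) ^ 2 -
      ∑ U ∈ R.powerset.filter (fun U => U.card ≤ D), cf (sf f) (U ∪ T) ^ 2| ≤ W * (3 * η) := by
  rw [← Finset.sum_sub_distrib]
  refine (Finset.abs_sum_le_sum_abs _ _).trans ?_
  have h1 : ∀ U ∈ R.powerset.filter (fun U => U.card ≤ D),
      |emp f x (U ∪ T) ^ 2 - cf (sf f) (U ∪ T) ^ 2| ≤ 3 * η := by
    intro U hU
    simp only [Finset.mem_filter] at hU
    refine sq_close (hg _ ?_) (cf_abs_le f _) hη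
    exact (Finset.card_union_le _ _).trans (Nat.add_le_add hU.2 hT)
  refine (Finset.sum_le_sum h1).trans ?_
  rw [Finset.sum_const, nsmul_eq_mul]
  refine mul_le_mul_of_nonneg_right ?_ (by positivity)
  exact_mod_cast (card_small R D).trans hW

theorem fine_range : Fine n (List.range n) :=
  ⟨List.nodup_range, fun _ hi => List.mem_range.1 hi⟩

/-- Nothing is detected. -/
def Quiet (f : (Fin n → Bool) → Bool) (D k : ℕ) (θ : ℝ) (R : Finset (Fin n)) : Prop :=
  ∀ T : Finset (Fin n), Disjoint T R → T.Nonempty → T.card ≤ k →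
    ∑ U ∈ R.powerset.filter (fun U => U.card ≤ D), cf (sf f) (U ∪ T) ^ 2 ≤ θ

section

variable {m W D k Q : ℕ} {η : ℝ} {f : (Fin n → Bool) → Bool} {x : Fin m → Fin n → Bool}

theorem step_prop (hm : 0 < m) (hQ : 0 < Q) (hg : Good f x (D + k) η) (hη : η ≤ 1)
    (h0 : 0 ≤ η) (hηW : W * (3 * η) * (2 * Q) ≤ 1) (hWn : (n + 1) ^ k ≤ W) {R : List ℕ}
    (hR : Fine n R) (hW : (R.length + 1) ^ D ≤ W) :
    Fine n (step W D k Q n (sample f x) R) ∧
    (step W D k Q n (sample f x) R).length ≤ R.length + k ∧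
    ((step W D k Q n (sample f x) R = R ∧ Quiet f D k (2 / Q) (fs R)) ∨
      pot f (fs R) + 1 / (2 * Q) ≤ pot f (fs (step W D k Q n (sample f x) R))) := by
  have hQ' : (0 : ℝ) < Q := by exact_mod_cast hQ
  have hm' : (0 : ℝ) < m := by exact_mod_cast hm
  have hηW' : W * (3 * η) ≤ 1 / (2 * Q) := by
    rw [le_div_iff₀ (by positivity)]
    exact hηW
  have hWn' : ((List.range n).length + 1) ^ k ≤ W := by rwa [List.length_range]
  have hcard : ((fs R : Finset (Fin n)).card + 1) ^ D ≤ W := by rwa [card_fs hR]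
  unfold step
  rcases hL : (subs W k (List.range n)).filter (ok W D Q (sample f x) R) with _ | ⟨T, L⟩
  · rw [List.headD_nil, List.nil_append]
    refine ⟨hR, Nat.le_add_right _ _, Or.inl (And.intro rfl ?_)⟩
    intro T hT1 hT2 hT3
    obtain ⟨T', hT', rfl⟩ := exists_subs fine_range hWn' T (by
      intro i _
      rw [mem_fs, List.mem_range]
      exact i.2) hT3
    have hsub := mem_subs fine_range hWn' hT'
    have hTf : Fine n T' := fine_range.sublist hsub.1
    have h1 : ok W D Q (sample f x) R T' ≠ true := by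
      intro h
      have := List.mem_filter.2 ⟨hT', h⟩
      rw [hL] at this
      simp at this
    have hd : ∀ i ∈ R, i ∉ T' := by
      intro i hi hi'
      have h2 : i < n := hR.2 i hi
      exact Finset.disjoint_left.1 hT1 ((mem_fs (i := (⟨i, h2⟩ : Fin n))).2 hi') (mem_fs.2 hi)
    have h2 : ¬ ((sample f x).length * (sample f x).length ≤
        Q * score W D (sample f x) R T') := by
      intro h
      apply h1
      unfold ok
      rw [Bool.and_eq_true, Bool.and_eq_true]
      refine ⟨⟨?_, ?_⟩, by simpa using h⟩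
      · obtain ⟨i, hi⟩ := hT2
        have := mem_fs.1 hi
        cases T' with
        | nil => simp at this
        | cons a T => rfl
      · rw [List.all_eq_true]
        intro i hi
        simp only [Bool.not_eq_true', decide_eq_false_iff_not]
        exact fun h => hd i h hi
    rw [sample_length, not_le] at h2
    have h3 : ((Q * score W D (sample f x) R T' : ℕ) : ℝ) < ((m * m : ℕ) : ℝ) := by
      exact_mod_cast h2
    push_cast at h3
    rw [score_eq hm f x hR hTf hd hW] at h3
    have h4 := sum_close hg hη h0 (R := fs R) (T := fs T') hT3 hcard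
    rw [abs_le] at h4
    have h5 : (Q : ℝ) * ∑ U ∈ (fs R : Finset (Fin n)).powerset.filter (fun U => U.card ≤ D),
        emp f x (U ∪ fs T') ^ 2 < 1 := by
      have h6 : (m : ℝ) ^ 2 * ((Q : ℝ) *
          ∑ U ∈ (fs R : Finset (Fin n)).powerset.filter (fun U => U.card ≤ D),
            emp f x (U ∪ fs T') ^ 2) < (m : ℝ) ^ 2 * 1 := by
        calc _ = (Q : ℝ) * ((m : ℝ) ^ 2 *
            ∑ U ∈ (fs R : Finset (Fin n)).powerset.filter (fun U => U.card ≤ D),
              emp f x (U ∪ fs T') ^ 2) := by ring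
          _ < (m : ℝ) * m := h3
          _ = (m : ℝ) ^ 2 * 1 := by ring
      exact lt_of_mul_lt_mul_left h6 (by positivity)
    have h6 : ∑ U ∈ (fs R : Finset (Fin n)).powerset.filter (fun U => U.card ≤ D),
        emp f x (U ∪ fs T') ^ 2 ≤ 1 / Q := by
      rw [le_div_iff₀ hQ']
      linarith
    have h7 : (2 : ℝ) / Q = 1 / Q + 2 * (1 / (2 * Q)) := by
      field_simp
      ring
    have h8 : 0 ≤ (1 : ℝ) / (2 * Q) := by positivity
    rw [h7]
    linarith [h4.1]
  · rw [List.headD_cons]
    have hTm : T ∈ (subs W k (List.range n)).filter (ok W D Q (sample f x) R) := by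
      rw [hL]
      simp
    rw [List.mem_filter] at hTm
    obtain ⟨hT', hok⟩ := hTm
    have hsub := mem_subs fine_range hWn' hT'
    have hTf : Fine n T := fine_range.sublist hsub.1
    unfold ok at hok
    rw [Bool.and_eq_true, Bool.and_eq_true, List.all_eq_true] at hok
    obtain ⟨⟨hne, hdis⟩, hsc⟩ := hok
    have hdis' : ∀ i ∈ T, i ∉ R := by
      intro i hi
      have := hdis i hi
      simpa using this
    have hd : ∀ i ∈ R, i ∉ T := fun i hi hi' => hdis' i hi' hi
    refine ⟨hTf.append hR hdis', ?_, Or.inr ?_⟩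
    · rw [List.length_append]
      have := hsub.2
      omega
    · rw [fs_append]
      have hD : Disjoint (fs T : Finset (Fin n)) (fs R) := by
        rw [Finset.disjoint_left]
        intro i hi hi'
        exact hdis' i (mem_fs.1 hi) (mem_fs.1 hi')
      have hN : (fs T : Finset (Fin n)).Nonempty := by
        rw [← Finset.card_pos, card_fs hTf]
        cases T with
        | nil => simp at hne
        | cons a T => simp
      refine le_trans ?_ (pot_union f (fs R) (fs T) D hD hN)
      have h3 : ((m * m : ℕ) : ℝ) ≤ ((Q * score W D (sample f x) R T : ℕ) : ℝ) := by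
        rw [decide_eq_true_eq, sample_length] at hsc
        exact_mod_cast hsc
      push_cast at h3
      rw [score_eq hm f x hR hTf hd hW] at h3
      have h4 := sum_close hg hη h0 (R := fs R) (T := fs T) (by
        rw [card_fs hTf]
        exact hsub.2) hcard
      rw [abs_le] at h4
      have h6 : 1 / (Q : ℝ) ≤ ∑ U ∈ (fs R : Finset (Fin n)).powerset.filter
          (fun U => U.card ≤ D), emp f x (U ∪ fs T) ^ 2 := by
        rw [div_le_iff₀ hQ']
        have h7 : (m : ℝ) ^ 2 * 1 ≤ (m : ℝ) ^ 2 *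
            ((∑ U ∈ (fs R : Finset (Fin n)).powerset.filter (fun U => U.card ≤ D),
              emp f x (U ∪ fs T) ^ 2) * Q) := by
          calc (m : ℝ) ^ 2 * 1 = (m : ℝ) * m := by ring
            _ ≤ _ := h3
            _ = _ := by ring
        exact le_of_mul_le_mul_left h7 (by positivity)
      have h7 : (1 : ℝ) / Q = 1 / (2 * Q) + 1 / (2 * Q) := by
        field_simp
        ring
      linarith [h4.2]

theorem run_succ (t : ℕ) (s : List (List Bool × Bool)) :
    run W D k Q n s (t + 1) = step W D k Q n s (run W D k Q n s t) := by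
  unfold run
  rw [List.replicate_succ', List.foldl_append]
  rfl

theorem run_prop (hm : 0 < m) (hQ : 0 < Q) (hg : Good f x (D + k) η) (hη : η ≤ 1)
    (h0 : 0 ≤ η) (hηW : W * (3 * η) * (2 * Q) ≤ 1) (hWn : (n + 1) ^ k ≤ W)
    (hW : (2 * Q * k + 1) ^ D ≤ W) (t : ℕ) :
    ∃ i : ℕ, Fine n (run W D k Q n (sample f x) t) ∧
      (run W D k Q n (sample f x) t).length ≤ i * k ∧
      (i : ℝ) / (2 * Q) ≤ pot f (fs (run W D k Q n (sample f x) t)) ∧
      (i = t ∨ (step W D k Q n (sample f x) (run W D k Q n (sample f x) t) =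
        run W D k Q n (sample f x) t ∧ Quiet f D k (2 / Q) (fs (run W D k Q n (sample f x) t)))) := by
  have hQ' : (0 : ℝ) < Q := by exact_mod_cast hQ
  induction t with
  | zero =>
    refine ⟨0, ⟨List.nodup_nil, by simp [run]⟩, by simp [run], ?_, Or.inl rfl⟩
    rw [Nat.cast_zero, zero_div]
    exact pot_nonneg f _
  | succ t ih =>
    obtain ⟨i, h1, h2, h3, h4⟩ := ih
    have hi : i ≤ 2 * Q := by
      have h5 := h3.trans (pot_le f _)
      rw [div_le_one (by positivity)] at h5
      exact_mod_cast h5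
    have hcap : ((run W D k Q n (sample f x) t).length + 1) ^ D ≤ W := by
      refine le_trans (Nat.pow_le_pow_left ?_ D) hW
      have h6 : i * k ≤ 2 * Q * k := Nat.mul_le_mul_right k hi
      omega
    obtain ⟨g1, g2, g3⟩ := step_prop hm hQ hg hη h0 hηW hWn h1 hcap
    rw [run_succ]
    rcases g3 with ⟨g3, g4⟩ | g3
    · rw [g3]
      exact ⟨i, h1, h2, h3, Or.inr ⟨g3, g4⟩⟩
    · rcases h4 with h4 | ⟨h4, h5⟩
      · refine ⟨i + 1, g1, ?_, ?_, Or.inl (by omega)⟩
        · rw [add_mul, one_mul]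
          exact g2.trans (Nat.add_le_add_right h2 k)
        · refine le_trans ?_ g3
          push_cast
          rw [add_div]
          linarith
      · rw [h4]
        exact ⟨i, h1, h2, h3, Or.inr ⟨h4, h5⟩⟩

theorem run_final (hm : 0 < m) (hQ : 0 < Q) (hg : Good f x (D + k) η) (hη : η ≤ 1)
    (h0 : 0 ≤ η) (hηW : W * (3 * η) * (2 * Q) ≤ 1) (hWn : (n + 1) ^ k ≤ W)
    (hW : (2 * Q * k + 1) ^ D ≤ W) {t : ℕ} (ht : 2 * Q < t) :
    Fine n (run W D k Q n (sample f x) t) ∧
      ((run W D k Q n (sample f x) t).length + 1) ^ D ≤ W ∧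
      Quiet f D k (2 / Q) (fs (run W D k Q n (sample f x) t)) := by
  have hQ' : (0 : ℝ) < Q := by exact_mod_cast hQ
  obtain ⟨i, h1, h2, h3, h4⟩ := run_prop hm hQ hg hη h0 hηW hWn hW t
  have hi : i ≤ 2 * Q := by
    have h5 := h3.trans (pot_le f _)
    rw [div_le_one (by positivity)] at h5
    exact_mod_cast h5
  refine ⟨h1, ?_, ?_⟩
  · refine le_trans (Nat.pow_le_pow_left ?_ D) hW
    have h6 : i * k ≤ 2 * Q * k := Nat.mul_le_mul_right k hi
    omega
  · rcases h4 with h4 | h4
    · omega
    · exact h4.2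

end

/-! ### The error of the hypothesis -/

theorem sg_comm {α : Type*} [Fintype α] [DecidableEq α] (A S : Finset α) : sg A S = sg S A := by
  have h : ∀ A S : Finset α, sg A S = (-1) ^ (A ∩ S).card := by
    intro A S
    unfold sg sg1
    rw [Finset.prod_ite]
    simp [Finset.filter_mem_eq_inter, Finset.inter_comm]
  rw [h, h, Finset.inter_comm]

theorem chi_vec (S A : Finset (Fin n)) : chi S (vec A) = sg A S := by
  unfold chi sg sg1 vec
  simp

theorem cf_poly (𝒰 : Finset (Finset (Fin n))) (w : Finset (Fin n) → ℝ) (S : Finset (Fin n)) :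
    cf (fun A => ∑ U ∈ 𝒰, w U * sg A U) S = if S ∈ 𝒰 then w S else 0 := by
  rw [cf_eq]
  have h1 : (fun A => (∑ U ∈ 𝒰, w U * sg A U) * sg A S) =
      fun A => ∑ U ∈ 𝒰, w U * (sg A U * sg A S) := by
    funext A
    rw [Finset.sum_mul]
    exact Finset.sum_congr rfl fun U _ => by ring
  rw [h1, av_sum]
  have h2 : ∀ U ∈ 𝒰, av (fun A => w U * (sg A U * sg A S)) = if U = S then w U else 0 := by
    intro U _
    rw [av_mul]
    have h3 : av (fun A : Finset (Fin n) => sg A U * sg A S) = if U = S then 1 else 0 := by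
      unfold av
      have h4 : ∑ A : Finset (Fin n), sg A U * sg A S = ∑ A : Finset (Fin n), sg U A * sg S A :=
        Finset.sum_congr rfl fun A _ => by rw [sg_comm A U, sg_comm A S]
      rw [h4, orth]
      have hN := (npos (α := Fin n)).ne'
      split_ifs
      · exact div_self hN
      · exact zero_div _
    rw [h3]
    split_ifs <;> ring
  rw [Finset.sum_congr rfl h2, Finset.sum_ite_eq']

theorem err_le {m W D : ℕ} (hm : 0 < m) {η : ℝ} {f : (Fin n → Bool) → Bool}
    {x : Fin m → Fin n → Bool} {R : List ℕ} (hR : Fine n R) (hW : (R.length + 1) ^ D ≤ W)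
    (hg : Good f x D η) :
    ((univ.filter fun y => hval (out W D (sample f x) R) (List.ofFn y) ≠ f y).card : ℝ) ≤
      2 ^ n * (W * η ^ 2 +
        ∑ S ∈ univ.filter (fun S : Finset (Fin n) => ¬ (S ⊆ fs R ∧ S.card ≤ D)),
          cf (sf f) S ^ 2) := by
  set 𝒰 := (fs R : Finset (Fin n)).powerset.filter (fun U => U.card ≤ D) with h𝒰
  set p : (Fin n → Bool) → ℝ := fun y => ∑ U ∈ 𝒰, emp f x U * chi U y with hp
  have h1 : ((univ.filter fun y => hval (out W D (sample f x) R) (List.ofFn y) ≠ f y).card : ℝ) ≤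
      ∑ y, (p y - pm (f y)) ^ 2 := by
    rw [Finset.card_filter]
    push_cast
    refine Finset.sum_le_sum fun y _ => ?_
    rw [hval_out hm f x hR hW y]
    split_ifs with h
    · have h2 : 1 ≤ |p y - pm (f y)| := by
        by_cases h3 : 0 ≤ p y
        · have h4 : decide (0 ≤ ∑ U ∈ 𝒰, emp f x U * chi U y) = true := by simpa using h3
          rw [h4] at h
          have h5 : f y = false := by
            cases hf : f y
            · rfl
            · exact absurd hf.symm h
          rw [h5]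
          simp only [pm, Bool.false_eq_true, if_false]
          rw [abs_of_nonneg (by linarith)]
          linarith
        · have h4 : decide (0 ≤ ∑ U ∈ 𝒰, emp f x U * chi U y) = false := by simpa using h3
          rw [h4] at h
          have h5 : f y = true := by
            cases hf : f y
            · exact absurd hf.symm h
            · rfl
          rw [h5]
          simp only [pm, if_true]
          rw [abs_of_nonpos (by linarith)]
          linarith
      rw [← sq_abs]
      nlinarith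
    · positivity
  refine h1.trans ?_
  have h2 : ∑ y, (p y - pm (f y)) ^ 2 = 2 ^ n * av (fun A : Finset (Fin n) =>
      ((∑ U ∈ 𝒰, emp f x U * sg A U) - sf f A) ^ 2) := by
    have h3 : (fun A : Finset (Fin n) => ((∑ U ∈ 𝒰, emp f x U * sg A U) - sf f A) ^ 2) =
        fun A => (fun y => (p y - pm (f y)) ^ 2) (vec A) := by
      funext A
      simp only [hp, chi_vec, sf]
    rw [h3, av_vec (fun y => (p y - pm (f y)) ^ 2)]
    field_simp
  rw [h2]
  refine mul_le_mul_of_nonneg_left ?_ (by positivity)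
  rw [← cf_parseval]
  have h3 : ∀ S, cf (fun A => (∑ U ∈ 𝒰, emp f x U * sg A U) - sf f A) S ^ 2 =
      if S ∈ 𝒰 then (emp f x S - cf (sf f) S) ^ 2 else cf (sf f) S ^ 2 := by
    intro S
    rw [cf_sub, cf_poly]
    split_ifs <;> ring
  simp_rw [h3]
  rw [Finset.sum_ite]
  have h4 : univ.filter (fun S => S ∈ 𝒰) = 𝒰 := by simp
  have h5 : univ.filter (fun S : Finset (Fin n) => S ∉ 𝒰) =
      univ.filter (fun S : Finset (Fin n) => ¬ (S ⊆ fs R ∧ S.card ≤ D)) := by
    ext S
    simp [h𝒰]
  rw [h4, h5]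
  have h6 : ∑ S ∈ 𝒰, (emp f x S - cf (sf f) S) ^ 2 ≤ W * η ^ 2 := by
    have h7 : ∀ S ∈ 𝒰, (emp f x S - cf (sf f) S) ^ 2 ≤ η ^ 2 := by
      intro S hS
      simp only [h𝒰, Finset.mem_filter] at hS
      rw [← sq_abs]
      exact pow_le_pow_left₀ (abs_nonneg _) (hg S hS.2) 2
    refine (Finset.sum_le_sum h7).trans ?_
    rw [Finset.sum_const, nsmul_eq_mul]
    refine mul_le_mul_of_nonneg_right ?_ (sq_nonneg _)
    have h8 : 𝒰.card ≤ W := by
      refine (card_small (fs R) D).trans ?_
      rwa [card_fs hR]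
    exact_mod_cast h8
  linarith

end Pool.Agent.Helper92.AM
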