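import Pool.Agent.Helper92.AM.Bridge

set_option autoImplicit false

/-!
# DNF formulas and decision trees
-/

namespace Pool.Agent.Helper92.AM

open Finset
open Pool.Agent.H637R3.UC

variable {n : ℕ}

/-- The point satisfies the term. -/
def sat (T : List (ℕ × Bool)) (x : List Bool) : Bool := T.all fun l => decide (x[l.1]? = some l.2)

/-- The value of a DNF formula. -/
def val (F : List (List (ℕ × Bool))) (x : List Bool) : Bool :=
  F.any fun T => T.all fun l => decide (x[l.1]? = some l.2)

theorem val_iff (F : List (List (ℕ × Bool))) (x : List Bool) :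
    val F x = true ↔ ∃ T ∈ F, sat T x = true := by
  simp [val, sat]

theorem sat_iff (T : List (ℕ × Bool)) (x : Fin n → Bool) :
    sat T (List.ofFn x) = true ↔ ∀ l ∈ T, ∃ h : l.1 < n, x ⟨l.1, h⟩ = l.2 := by
  unfold sat
  rw [List.all_eq_true]
  refine forall_congr' fun l => forall_congr' fun _ => ?_
  rw [decide_eq_true_eq, List.getElem?_ofFn]
  split_ifs with h
  · simp [h]
  · simp [h]

theorem lit_of_flip {T : List (ℕ × Bool)} {x : Fin n → Bool} {i : Fin n}
    (h1 : sat T (List.ofFn x) = true) (h2 : sat T (List.ofFn (flip x i)) = false) :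
    ((i : ℕ), x i) ∈ T := by
  by_contra hc
  rw [← Bool.not_eq_true] at h2
  apply h2
  rw [sat_iff] at h1 ⊢
  intro l hl
  obtain ⟨h, h3⟩ := h1 l hl
  refine ⟨h, ?_⟩
  unfold flip
  rw [Function.update_apply, if_neg, h3]
  intro h4
  apply hc
  rw [← h4, h3]
  exact hl

theorem val_false {F : List (List (ℕ × Bool))} {x : List Bool} (h : val F x = false)
    {T : List (ℕ × Bool)} (hT : T ∈ F) : sat T x = false := by
  rw [← Bool.not_eq_true] at h ⊢
  intro h1
  exact h ((val_iff F x).2 ⟨T, hT, h1⟩)

/-- In formulas with at most `c` minority literals in every term the bad influence is at most `c`. -/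
theorem bad_dnf {c : ℕ} (F : List (List (ℕ × Bool))) (σ : ℕ → Bool)
    (hF : ∀ T ∈ F, (T.filter fun l => decide (l.2 ≠ σ l.1)).length ≤ c) :
    ∑ i, bad (fun i : Fin n => σ i) (fun x => val F (List.ofFn x)) i ≤ c := by
  unfold bad
  rw [← Finset.sum_div, Finset.sum_comm, div_le_iff₀ (by positivity)]
  have key : ∀ x : Fin n → Bool, (∑ i : Fin n, if x i ≠ σ i ∧ val F (List.ofFn x) = true ∧
      val F (List.ofFn (flip x i)) = false then (1 : ℝ) else 0) ≤ c := by
    intro x
    rw [Finset.sum_boole]
    norm_cast
    by_cases hv : val F (List.ofFn x) = true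
    · obtain ⟨T, hT, hs⟩ := (val_iff _ _).1 hv
      refine le_trans ?_ (le_trans (List.toFinset_card_le _) (hF T hT))
      refine Finset.card_le_card_of_injOn (fun i : Fin n => ((i : ℕ), x i)) ?_ ?_
      · intro i hi
        rw [Finset.mem_coe, Finset.mem_filter] at hi
        rw [Finset.mem_coe, List.mem_toFinset, List.mem_filter]
        refine ⟨lit_of_flip hs (val_false hi.2.2.2 hT), ?_⟩
        rw [decide_eq_true_eq]
        exact hi.2.1
      · intro i _ j _ h
        simp only [Prod.mk.injEq] at h
        exact Fin.ext h.1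
    · rw [Finset.filter_eq_empty_iff.2]
      · simp
      · intro i _ h
        exact hv h.2.1
  refine le_trans (Finset.sum_le_sum fun x _ => key x) ?_
  rw [Finset.sum_const, Finset.card_univ, Fintype.card_fun, Fintype.card_bool, Fintype.card_fin,
    nsmul_eq_mul]
  push_cast
  rw [mul_comm]

/-- A point of a short term is not rare. -/
theorem sat_count (T : List (ℕ × Bool)) :
    (univ.filter fun x : Fin n → Bool => sat T (List.ofFn x) = true).card * 2 ^ T.toFinset.card ≤
      2 ^ n := by
  rcases Finset.eq_empty_or_nonempty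
    (univ.filter fun x : Fin n → Bool => sat T (List.ofFn x) = true) with h | ⟨x0, h0⟩
  · rw [h]; simp
  · rw [Finset.mem_filter, sat_iff] at h0
    have h0 := h0.2
    set V : Finset (Fin n) := univ.filter fun i => ((i : ℕ), x0 i) ∈ T with hV
    have h1 : T.toFinset.card ≤ V.card := by
      refine Finset.card_le_card_of_surjOn (fun i : Fin n => ((i : ℕ), x0 i)) ?_
      intro l hl
      rw [Finset.mem_coe, List.mem_toFinset] at hl
      obtain ⟨h, h3⟩ := h0 l hl
      refine ⟨⟨l.1, h⟩, ?_, ?_⟩
      · rw [Finset.mem_coe, hV, Finset.mem_filter]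
        refine ⟨Finset.mem_univ _, ?_⟩
        rw [h3]
        exact hl
      · simp only [h3]
    have h2 : (univ.filter fun x : Fin n → Bool => sat T (List.ofFn x) = true) ⊆
        Fintype.piFinset fun i => if i ∈ V then {x0 i} else univ := by
      intro x hx
      rw [Finset.mem_filter, sat_iff] at hx
      rw [Fintype.mem_piFinset]
      intro i
      split_ifs with hi
      · rw [hV, Finset.mem_filter] at hi
        obtain ⟨h, h3⟩ := hx.2 _ hi.2
        rw [Finset.mem_singleton]
        exact h3
      · exact Finset.mem_univ _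
    have h3 : (Fintype.piFinset fun i : Fin n => if i ∈ V then {x0 i} else univ).card *
        2 ^ V.card = 2 ^ n := by
      rw [Fintype.card_piFinset]
      have h4 : ∀ i : Fin n, (if i ∈ V then ({x0 i} : Finset Bool) else univ).card =
          if i ∈ V then 1 else 2 := by
        intro i
        split_ifs <;> simp
      rw [Finset.prod_congr rfl fun i _ => h4 i, Finset.prod_ite, Finset.prod_const_one, one_mul,
        Finset.prod_const, ← pow_add]
      congr 1
      have h5 := Finset.card_filter_add_card_filter_not (s := (univ : Finset (Fin n))) (fun i => i ∈ V)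
      simp only [Finset.filter_mem_eq_inter, Finset.univ_inter, Finset.card_univ,
        Fintype.card_fin] at h5
      omega
    calc _ ≤ (Fintype.piFinset fun i : Fin n => if i ∈ V then {x0 i} else univ).card *
        2 ^ V.card := Nat.mul_le_mul (Finset.card_le_card h2) (Nat.pow_le_pow_right (by norm_num) h1)
      _ = _ := h3

theorem tinf_eq (f : (Fin n → Bool) → Bool) :
    tinf (sf f) = 2 * (∑ x, ∑ i, if f x = true ∧ f (flip x i) = false then (1 : ℝ) else 0) /
      2 ^ n := by
  rw [← sum_infl, Finset.sum_comm, mul_div_assoc, Finset.sum_div, Finset.mul_sum]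
  refine Finset.sum_congr rfl fun i _ => ?_
  rw [infl_sf, ← mul_div_assoc]
  congr 1
  set b : (Fin n → Bool) → ℝ := fun x =>
    if f x = true ∧ f (flip x i) = false then (1 : ℝ) else 0 with hb
  have h1 : ∀ x : Fin n → Bool, (if f x ≠ f (flip x i) then (1 : ℝ) else 0) =
      b x + b (flip x i) := by
    intro x
    simp only [hb, flip_flip]
    cases f x <;> cases f (flip x i) <;> norm_num
  simp_rw [h1]
  rw [Finset.sum_add_distrib, sum_flip b i, two_mul]

/-- The total influence of a DNF formula with `s` terms. -/
theorem tinf_dnf {s L : ℕ} (F : List (List (ℕ × Bool))) (hF : F.length ≤ s) (hs : s ≤ 2 ^ L) :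
    tinf (sf fun x : Fin n → Bool => val F (List.ofFn x)) ≤ 2 * (L + 1) := by
  rw [tinf_eq, div_le_iff₀ (by positivity), mul_assoc]
  refine mul_le_mul_of_nonneg_left ?_ (by norm_num)
  have key : ∀ x : Fin n → Bool, (∑ i : Fin n, if val F (List.ofFn x) = true ∧
      val F (List.ofFn (flip x i)) = false then (1 : ℝ) else 0) ≤
      L + (F.map fun T => if sat T (List.ofFn x) = true then
        (2 : ℝ) ^ T.toFinset.card / 2 ^ L else 0).sum := by
    intro x
    have hnn : ∀ a ∈ F.map fun T => if sat T (List.ofFn x) = true then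
        (2 : ℝ) ^ T.toFinset.card / 2 ^ L else 0, 0 ≤ a := by
      intro a ha
      obtain ⟨T, _, rfl⟩ := List.mem_map.1 ha
      split_ifs <;> positivity
    by_cases hv : val F (List.ofFn x) = true
    · obtain ⟨T, hT, hs⟩ := (val_iff _ _).1 hv
      have h1 : (∑ i : Fin n, if val F (List.ofFn x) = true ∧
          val F (List.ofFn (flip x i)) = false then (1 : ℝ) else 0) ≤ T.toFinset.card := by
        rw [Finset.sum_boole]
        norm_cast
        refine Finset.card_le_card_of_injOn (fun i : Fin n => ((i : ℕ), x i)) ?_ ?_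
        · intro i hi
          rw [Finset.mem_coe, Finset.mem_filter] at hi
          rw [Finset.mem_coe, List.mem_toFinset]
          exact lit_of_flip hs (val_false hi.2.2 hT)
        · intro i _ j _ h
          simp only [Prod.mk.injEq] at h
          exact Fin.ext h.1
      have h2 : (2 : ℝ) ^ T.toFinset.card / 2 ^ L ≤ (F.map fun T => if sat T (List.ofFn x) = true then
          (2 : ℝ) ^ T.toFinset.card / 2 ^ L else 0).sum := by
        refine List.single_le_sum hnn _ ?_
        refine List.mem_map.2 ⟨T, hT, ?_⟩
        rw [if_pos hs]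
      have h3 : (T.toFinset.card : ℝ) ≤ L + (2 : ℝ) ^ T.toFinset.card / 2 ^ L := by
        rcases le_total T.toFinset.card L with h | h
        · have h4 : (T.toFinset.card : ℝ) ≤ L := by exact_mod_cast h
          have h5 : (0 : ℝ) ≤ (2 : ℝ) ^ T.toFinset.card / 2 ^ L := by positivity
          linarith
        · obtain ⟨k, hk⟩ := Nat.exists_eq_add_of_le h
          rw [hk, pow_add, mul_comm, mul_div_assoc, div_self (by positivity), mul_one]
          have h4 : k < 2 ^ k := Nat.lt_two_pow_self
          have h5 : (k : ℝ) ≤ 2 ^ k := by exact_mod_cast h4.le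
          push_cast
          linarith
      linarith
    · rw [Finset.sum_boole, Finset.filter_eq_empty_iff.2]
      · have := List.sum_nonneg hnn
        simp only [Finset.card_empty, Nat.cast_zero]
        have hL : (0 : ℝ) ≤ L := Nat.cast_nonneg _
        linarith
      · intro i _ h
        exact hv h.1
  refine le_trans (Finset.sum_le_sum fun x _ => key x) ?_
  rw [Finset.sum_add_distrib, Finset.sum_const, Finset.card_univ, Fintype.card_fun,
    Fintype.card_bool, Fintype.card_fin, nsmul_eq_mul]
  have h1 : ∀ G : List (List (ℕ × Bool)), (∑ x : Fin n → Bool,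
      (G.map fun T => if sat T (List.ofFn x) = true then
        (2 : ℝ) ^ T.toFinset.card / 2 ^ L else 0).sum) ≤ G.length * (2 ^ n / 2 ^ L) := by
    intro G
    induction G with
    | nil => simp
    | cons T G ih =>
      simp only [List.map_cons, List.sum_cons, List.length_cons]
      rw [Finset.sum_add_distrib]
      have h2 : (∑ x : Fin n → Bool, if sat T (List.ofFn x) = true then
          (2 : ℝ) ^ T.toFinset.card / 2 ^ L else 0) ≤ 2 ^ n / 2 ^ L := by
        rw [← Finset.sum_filter, Finset.sum_const, nsmul_eq_mul, ← mul_div_assoc]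
        refine div_le_div_of_nonneg_right ?_ (by positivity)
        exact_mod_cast sat_count (n := n) T
      push_cast
      linarith
  have h2 : (F.length : ℝ) * (2 ^ n / 2 ^ L) ≤ 2 ^ n := by
    have h3 : (F.length : ℝ) ≤ 2 ^ L := by exact_mod_cast hF.trans hs
    calc (F.length : ℝ) * (2 ^ n / 2 ^ L) ≤ 2 ^ L * (2 ^ n / 2 ^ L) :=
          mul_le_mul_of_nonneg_right h3 (by positivity)
      _ = 2 ^ n := by field_simp
  have h3 := h1 F
  push_cast
  linarith

/-! ### Decision trees -/

/-- Decision trees. -/
inductive Tree where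
  | leaf (b : Bool) : Tree
  | node (i : ℕ) (l r : Tree) : Tree

/-- The value of a decision tree: the right subtree is taken if the coordinate is `1`. -/
def Tree.eval (x : List Bool) : Tree → Bool
  | .leaf b => b
  | .node i l r => if x[i]? = some true then r.eval x else l.eval x

/-- The number of leaves. -/
def Tree.leaves : Tree → ℕ
  | .leaf _ => 1
  | .node _ l r => l.leaves + r.leaves

theorem Tree.one_le : ∀ T : Tree, 1 ≤ T.leaves
  | .leaf _ => le_rfl
  | .node _ l r => le_trans l.one_le (Nat.le_add_right _ _)

/-- The sign of the coordinate. -/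
def tau (σ : Fin n → Bool) (x : Fin n → Bool) (i : Fin n) : ℝ := if x i = σ i then 1 else -1

/-- Mean value of a real function on the cube. -/
noncomputable def mean (φ : (Fin n → Bool) → ℝ) : ℝ := (∑ x, φ x) / 2 ^ n

/-- Sum of the coefficients of degree one with the signs `σ`. -/
noncomputable def lin (σ : Fin n → Bool) (φ : (Fin n → Bool) → ℝ) : ℝ :=
  ∑ j, mean fun x => φ x * tau σ x j

theorem mean_split {φ φ0 φ1 : (Fin n → Bool) → ℝ} {i : Fin n}
    (h0 : ∀ x, φ0 (flip x i) = φ0 x) (h1 : ∀ x, φ1 (flip x i) = φ1 x)
    (h : ∀ x, φ x = if x i = true then φ1 x else φ0 x) :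
    mean φ = (mean φ0 + mean φ1) / 2 := by
  unfold mean
  have h2 : ∀ x, φ x + φ (flip x i) = φ0 x + φ1 x := by
    intro x
    rw [h, h, flip_self, h0, h1]
    cases x i <;> simp [add_comm]
  have h3 : (∑ x, φ x) * 2 = (∑ x, φ0 x) + ∑ x, φ1 x := by
    rw [← Finset.sum_add_distrib, mul_two]
    conv_lhs => rw [← sum_flip φ i]
    rw [sum_flip φ i]
    conv_lhs => arg 2; rw [← sum_flip φ i]
    rw [← Finset.sum_add_distrib]
    exact Finset.sum_congr rfl fun x _ => h2 x
  have h4 : (∑ x, φ x) = ((∑ x, φ0 x) + ∑ x, φ1 x) / 2 := by linarith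
  rw [h4]
  ring

theorem mean_anti {φ : (Fin n → Bool) → ℝ} {i : Fin n} (h : ∀ x, φ (flip x i) = -φ x) :
    mean φ = 0 := by
  unfold mean
  have h1 : (∑ x, φ x) = -∑ x, φ x := by
    conv_lhs => rw [← sum_flip φ i]
    rw [← Finset.sum_neg_distrib]
    exact Finset.sum_congr rfl fun x _ => h x
  have h2 : (∑ x, φ x) = 0 := by linarith
  rw [h2, zero_div]

theorem mean_mul (φ : (Fin n → Bool) → ℝ) (c : ℝ) : (mean fun x => φ x * c) = mean φ * c := by
  unfold mean
  rw [← Finset.sum_mul]
  ring

theorem tau_flip (σ : Fin n → Bool) (x : Fin n → Bool) (i : Fin n) :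
    tau σ (flip x i) i = -tau σ x i := by
  unfold tau
  rw [flip_self]
  cases x i <;> cases σ i <;> simp

theorem tau_flip_ne (σ : Fin n → Bool) (x : Fin n → Bool) {i j : Fin n} (h : j ≠ i) :
    tau σ (flip x i) j = tau σ x j := by
  unfold tau flip
  rw [Function.update_apply, if_neg h]

theorem lin_split {φ φ0 φ1 : (Fin n → Bool) → ℝ} {i : Fin n} (σ : Fin n → Bool)
    (h0 : ∀ x, φ0 (flip x i) = φ0 x) (h1 : ∀ x, φ1 (flip x i) = φ1 x)
    (h : ∀ x, φ x = if x i = true then φ1 x else φ0 x) :
    lin σ φ = (lin σ φ0 + lin σ φ1) / 2 +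
      (mean φ1 - mean φ0) / 2 * (if true = σ i then 1 else -1) := by
  have key : ∀ j, (mean fun x => φ x * tau σ x j) =
      ((mean fun x => φ0 x * tau σ x j) + (mean fun x => φ1 x * tau σ x j)) / 2 +
      if j = i then (mean φ1 - mean φ0) / 2 * (if true = σ i then 1 else -1) else 0 := by
    intro j
    by_cases hj : j = i
    · subst hj
      rw [if_pos rfl]
      have h2 : (mean fun x => φ0 x * tau σ x j) = 0 := by
        refine mean_anti (i := j) fun x => ?_
        rw [h0, tau_flip]
        ring
      have h3 : (mean fun x => φ1 x * tau σ x j) = 0 := by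
        refine mean_anti (i := j) fun x => ?_
        rw [h1, tau_flip]
        ring
      have h4 : (mean fun x => φ x * tau σ x j) =
          ((mean fun x => φ0 x * (-(if true = σ j then 1 else -1))) +
            mean fun x => φ1 x * (if true = σ j then 1 else -1)) / 2 := by
        refine mean_split (i := j) (fun x => by rw [h0]) (fun x => by rw [h1]) fun x => ?_
        rw [h]
        unfold tau
        cases x j <;> cases σ j <;> simp
      rw [h4, h2, h3, mean_mul, mean_mul]
      ring
    · rw [if_neg hj, add_zero]
      refine mean_split (i := i) (fun x => ?_) (fun x => ?_) fun x => ?_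
      · rw [h0, tau_flip_ne σ x hj]
      · rw [h1, tau_flip_ne σ x hj]
      · rw [h]
        split_ifs <;> rfl
  unfold lin
  rw [Finset.sum_congr rfl fun j _ => key j, Finset.sum_add_distrib, ← Finset.sum_div,
    Finset.sum_add_distrib, Finset.sum_ite_eq' univ i]
  simp

theorem logb_mono {a b : ℕ} (ha : 1 ≤ a) (hb : a ≤ b) : Real.logb 2 a ≤ Real.logb 2 b :=
  Real.logb_le_logb_of_le (by norm_num) (by exact_mod_cast ha) (by exact_mod_cast hb)

theorem logb_nonneg' (a : ℕ) : 0 ≤ Real.logb 2 a := by
  rcases Nat.eq_zero_or_pos a with rfl | h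
  · simp
  · exact Real.logb_nonneg (by norm_num) (by exact_mod_cast h)

theorem logb_add {a b : ℕ} (ha : 1 ≤ a) (hb : 1 ≤ b) :
    1 + (Real.logb 2 a + Real.logb 2 b) / 2 ≤ Real.logb 2 (a + b : ℕ) := by
  have ha' : (0 : ℝ) < a := by exact_mod_cast ha
  have hb' : (0 : ℝ) < b := by exact_mod_cast hb
  have h1 : Real.logb 2 (4 * (a * b)) = 2 + (Real.logb 2 a + Real.logb 2 b) := by
    rw [Real.logb_mul (by norm_num) (by positivity), Real.logb_mul ha'.ne' hb'.ne']
    congr 1
    rw [show (4 : ℝ) = 2 ^ (2 : ℝ) by norm_num, Real.logb_rpow (by norm_num) (by norm_num)]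
  have h2 : Real.logb 2 (((a + b : ℕ) : ℝ) ^ 2) = 2 * Real.logb 2 (a + b : ℕ) := by
    rw [Real.logb_pow]
    norm_num
  have h3 : Real.logb 2 (4 * (a * b)) ≤ Real.logb 2 (((a + b : ℕ) : ℝ) ^ 2) := by
    refine Real.logb_le_logb_of_le (by norm_num) (by positivity) ?_
    push_cast
    nlinarith [sq_nonneg ((a : ℝ) - b)]
  rw [h1, h2] at h3
  linarith

/-- Restricted point. -/
def rst (ρ : Fin n → Option Bool) (x : Fin n → Bool) : List Bool :=
  List.ofFn fun j => (ρ j).getD (x j)

theorem rst_flip {ρ : Fin n → Option Bool} {i : Fin n} (b : Bool) (x : Fin n → Bool) :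
    rst (Function.update ρ i (some b)) (flip x i) = rst (Function.update ρ i (some b)) x := by
  unfold rst
  congr 1
  funext j
  rw [Function.update_apply]
  split_ifs with h
  · rfl
  · unfold flip
    rw [Function.update_apply, if_neg h]

theorem rst_update {ρ : Fin n → Option Bool} {i : Fin n} (b : Bool) (x : Fin n → Bool)
    (hρ : ρ i = none) (hx : x i = b) : rst (Function.update ρ i (some b)) x = rst ρ x := by
  unfold rst
  congr 1
  funext j
  rw [Function.update_apply]
  split_ifs with h
  · subst h
    rw [hρ, hx]
    rfl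
  · rfl

/-- The inequality of O'Donnell and Servedio for decision trees. -/
theorem lin_tree (σ : Fin n → Bool) (T : Tree) : ∀ (ρ : Fin n → Option Bool) (a : ℝ),
    a * (mean fun x => pm (T.eval (rst ρ x))) + lin σ (fun x => pm (T.eval (rst ρ x))) ≤
      √(a ^ 2 + Real.logb 2 T.leaves) := by
  induction T with
  | leaf b =>
    intro ρ a
    simp only [Tree.eval, Tree.leaves, Nat.cast_one, Real.logb_one, add_zero]
    have h1 : lin σ (fun _ => pm b) = 0 := by
      unfold lin
      refine Finset.sum_eq_zero fun j _ => mean_anti (i := j) fun x => ?_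
      rw [tau_flip]
      ring
    have h2 : (mean fun _ : Fin n → Bool => pm b) = pm b := by
      unfold mean
      rw [Finset.sum_const, Finset.card_univ, Fintype.card_fun, Fintype.card_bool,
        Fintype.card_fin, nsmul_eq_mul]
      push_cast
      field_simp
    rw [h1, h2, Real.sqrt_sq_eq_abs, add_zero]
    unfold pm
    split_ifs
    · rw [mul_one]; exact le_abs_self a
    · rw [mul_neg_one]; exact neg_le_abs a
  | node i l r ihl ihr =>
    intro ρ a
    have hl := l.one_le
    have hr := r.one_le
    have hL : √(a ^ 2 + Real.logb 2 l.leaves) ≤ √(a ^ 2 + Real.logb 2 (Tree.node i l r).leaves) := by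
      refine Real.sqrt_le_sqrt ?_
      have := logb_mono hl (Nat.le_add_right l.leaves r.leaves)
      simp only [Tree.leaves]
      linarith
    have hR : √(a ^ 2 + Real.logb 2 r.leaves) ≤ √(a ^ 2 + Real.logb 2 (Tree.node i l r).leaves) := by
      refine Real.sqrt_le_sqrt ?_
      have := logb_mono hr (Nat.le_add_left r.leaves l.leaves)
      simp only [Tree.leaves]
      linarith
    by_cases hi : i < n
    · cases hρ : ρ ⟨i, hi⟩ with
      | some b =>
        have h1 : ∀ x, (rst ρ x)[i]? = some b := by
          intro x
          unfold rst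
          rw [List.getElem?_ofFn, dif_pos hi, hρ]
          rfl
        cases b with
        | true =>
          have h2 : (fun x => pm ((Tree.node i l r).eval (rst ρ x))) =
              fun x => pm (r.eval (rst ρ x)) := by
            funext x
            rw [Tree.eval, if_pos (h1 x)]
          rw [h2]
          exact (ihr ρ a).trans hR
        | false =>
          have h2 : (fun x => pm ((Tree.node i l r).eval (rst ρ x))) =
              fun x => pm (l.eval (rst ρ x)) := by
            funext x
            rw [Tree.eval, if_neg]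
            rw [h1 x]
            simp
          rw [h2]
          exact (ihl ρ a).trans hL
      | none =>
        set j : Fin n := ⟨i, hi⟩ with hj
        set φ0 : (Fin n → Bool) → ℝ := fun x => pm (l.eval (rst (Function.update ρ j (some false)) x))
          with hφ0
        set φ1 : (Fin n → Bool) → ℝ := fun x => pm (r.eval (rst (Function.update ρ j (some true)) x))
          with hφ1
        have h0 : ∀ x, φ0 (flip x j) = φ0 x := fun x => by
          simp only [hφ0, rst_flip]
        have h1 : ∀ x, φ1 (flip x j) = φ1 x := fun x => by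
          simp only [hφ1, rst_flip]
        have hh : ∀ x, pm ((Tree.node i l r).eval (rst ρ x)) =
            if x j = true then φ1 x else φ0 x := by
          intro x
          have h2 : (rst ρ x)[i]? = some (x j) := by
            unfold rst
            rw [List.getElem?_ofFn, dif_pos hi, hρ]
            rfl
          rw [Tree.eval, h2]
          cases hx : x j with
          | true =>
            simp only [if_true, hφ1, rst_update true x hρ hx]
          | false =>
            simp [hφ0, rst_update false x hρ hx]
        rw [mean_split h0 h1 hh, lin_split σ h0 h1 hh]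
        set ε : ℝ := if true = σ j then 1 else -1 with hε
        have hε2 : ε ^ 2 = 1 := by
          rw [hε]; split_ifs <;> norm_num
        have e1 := ihr (Function.update ρ j (some true)) (a + ε)
        have e0 := ihl (Function.update ρ j (some false)) (a - ε)
        have e2 := logb_add hl hr
        simp only [Tree.leaves]
        have hn1 : 0 ≤ (a + ε) ^ 2 + Real.logb 2 r.leaves :=
          add_nonneg (sq_nonneg _) (logb_nonneg' _)
        have hn0 : 0 ≤ (a - ε) ^ 2 + Real.logb 2 l.leaves :=
          add_nonneg (sq_nonneg _) (logb_nonneg' _)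
        have s1 := Real.sq_sqrt hn1
        have s0 := Real.sq_sqrt hn0
        set u := √((a + ε) ^ 2 + Real.logb 2 r.leaves) with hu
        set v := √((a - ε) ^ 2 + Real.logb 2 l.leaves) with hv
        refine le_trans (b := (u + v) / 2) ?_ ?_
        · simp only [← hφ0, ← hφ1] at e0 e1
          nlinarith
        · refine Real.le_sqrt_of_sq_le ?_
          nlinarith [sq_nonneg (u - v)]
    · have h1 : ∀ x, (rst ρ x)[i]? = none := by
        intro x
        unfold rst
        rw [List.getElem?_ofFn, dif_neg hi]
      have h2 : (fun x => pm ((Tree.node i l r).eval (rst ρ x))) =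
          fun x => pm (l.eval (rst ρ x)) := by
        funext x
        rw [Tree.eval, if_neg]
        rw [h1 x]
        simp
      rw [h2]
      exact (ihl ρ a).trans hL

/-- The total influence of a function computed by a decision tree. -/
theorem tinf_tree (σ : Fin n → Bool) (f : (Fin n → Bool) → Bool) (T : Tree)
    (hT : ∀ x, f x = T.eval (List.ofFn x)) :
    tinf (sf f) ≤ √(Real.logb 2 T.leaves) + 4 * ∑ i, bad σ f i := by
  rw [← sum_infl, Finset.sum_congr rfl fun i _ => infl_eq σ f i, Finset.sum_add_distrib,
    ← Finset.mul_sum]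
  have h1 := lin_tree σ T (fun _ : Fin n => none) 0
  have h2 : ∀ x : Fin n → Bool, rst (fun _ => none) x = List.ofFn x := fun x => rfl
  simp only [h2, ← hT, zero_mul, zero_add, ne_eq, OfNat.ofNat_ne_zero, not_false_eq_true,
    zero_pow] at h1
  have h3 : (∑ i, (∑ x, pm (f x) * (if x i = σ i then 1 else -1)) / 2 ^ n) =
      lin σ fun x => pm (f x) := rfl
  rw [h3]
  linarith

end Pool.Agent.Helper92.AM
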