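import Pool.Agent.Helper92.AM.Params
import Pool.Graph.R_seed8.NPC.Dec

set_option autoImplicit false

/-!
# The learner is computed in polynomial time by a Turing machine
-/

namespace Pool.Agent.Helper92.AM

open Pool.Agent.NPC

section

variable {α : Type} [TEnc α]

theorem poly_par {S : α → List ℕ} {x : α → List Bool} (hS : NPC.Poly S) (hx : NPC.Poly x) :
    NPC.Poly (fun a => par (S a) (x a)) := by
  unfold par
  refine NPC.Poly.decide_eq (NPC.Poly.mod (NPC.Poly.length (NPC.Poly.filter
    (p := fun a i => (x a).getD i false) hS ?_)) (NPC.Poly.const 2)) (NPC.Poly.const 1)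
  exact NPC.Poly.getD (d := fun _ => false) (hx.comp (NPC.Poly.fst NPC.Poly.id))
    (NPC.Poly.snd NPC.Poly.id) (NPC.Poly.const false)

theorem poly_hval {H : α → Hyp} {x : α → List Bool} (hH : NPC.Poly H) (hx : NPC.Poly x) :
    NPC.Poly (fun a => hval (H a) (x a)) := by
  unfold hval
  have hp : NPC.Poly (fun p : α × (List ℕ × ℕ × ℕ) => par p.2.1 (x p.1)) :=
    poly_par (NPC.Poly.fst (NPC.Poly.snd NPC.Poly.id)) (hx.comp (NPC.Poly.fst NPC.Poly.id))
  have h1 : NPC.Poly (fun p : α × (List ℕ × ℕ × ℕ) => p.2.2.1) :=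
    NPC.Poly.fst (NPC.Poly.snd (NPC.Poly.snd NPC.Poly.id))
  have h2 : NPC.Poly (fun p : α × (List ℕ × ℕ × ℕ) => p.2.2.2) :=
    NPC.Poly.snd (NPC.Poly.snd (NPC.Poly.snd NPC.Poly.id))
  refine NPC.Poly.decide_le (NPC.Poly.sum (NPC.Poly.map
    (F := fun a (q : List ℕ × ℕ × ℕ) => if par q.1 (x a) then q.2.1 else q.2.2) hH ?_))
    (NPC.Poly.sum (NPC.Poly.map
    (F := fun a (q : List ℕ × ℕ × ℕ) => if par q.1 (x a) then q.2.2 else q.2.1) hH ?_))
  · exact NPC.Poly.ite (p := fun p : α × (List ℕ × ℕ × ℕ) => par p.2.1 (x p.1) = true)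
      (NPC.Poly.decide_bool hp) h1 h2
  · exact NPC.Poly.ite (p := fun p : α × (List ℕ × ℕ × ℕ) => par p.2.1 (x p.1) = true)
      (NPC.Poly.decide_bool hp) h2 h1

theorem poly_agree {s : α → List (List Bool × Bool)} {S : α → List ℕ} (hs : NPC.Poly s)
    (hS : NPC.Poly S) : NPC.Poly (fun a => agree (s a) (S a)) := by
  unfold agree
  refine NPC.Poly.length (NPC.Poly.filter (p := fun a (z : List Bool × Bool) =>
    xor z.2 (par (S a) z.1)) hs ?_)
  exact NPC.Poly.xor (NPC.Poly.snd (NPC.Poly.snd NPC.Poly.id))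
    (poly_par (hS.comp (NPC.Poly.fst NPC.Poly.id)) (NPC.Poly.fst (NPC.Poly.snd NPC.Poly.id)))

theorem poly_sqd {x y : α → ℕ} (hx : NPC.Poly x) (hy : NPC.Poly y) :
    NPC.Poly (fun a => sqd (x a) (y a)) := by
  unfold sqd
  have h2 : NPC.Poly (fun a => 2 * x a) := NPC.Poly.mul (NPC.Poly.const 2) hx
  exact NPC.Poly.add (NPC.Poly.mul (NPC.Poly.sub h2 hy) (NPC.Poly.sub h2 hy))
    (NPC.Poly.mul (NPC.Poly.sub hy h2) (NPC.Poly.sub hy h2))

theorem poly_sub0 {D x : α → ℕ} {acc : α → List (List ℕ)} (hD : NPC.Poly D) (hx : NPC.Poly x)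
    (ha : NPC.Poly acc) : NPC.Poly (fun a => sub0 (D a) (x a) (acc a)) := by
  unfold sub0
  refine NPC.Poly.append ha (NPC.Poly.map (F := fun a (t : List ℕ) => x a :: t)
    (NPC.Poly.filter (p := fun a (t : List ℕ) => decide (t.length < D a)) ha ?_) ?_)
  · exact NPC.Poly.decide_lt (NPC.Poly.length (NPC.Poly.snd NPC.Poly.id))
      (hD.comp (NPC.Poly.fst NPC.Poly.id))
  · exact NPC.Poly.cons (hx.comp (NPC.Poly.fst NPC.Poly.id)) (NPC.Poly.snd NPC.Poly.id)

theorem poly_sub1 {W D x : α → ℕ} {acc : α → List (List ℕ)} (hW : NPC.Poly W) (hD : NPC.Poly D)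
    (hx : NPC.Poly x) (ha : NPC.Poly acc) :
    NPC.Poly (fun a => sub1 (W a) (D a) (x a) (acc a)) := by
  unfold sub1
  have h := poly_sub0 hD hx ha
  exact NPC.Poly.ite (NPC.Poly.decide_le (NPC.Poly.length h) hW) h (NPC.Poly.const [])

end

theorem subs_len (W D : ℕ) : ∀ C : List ℕ, (C.foldr (sub1 W D) [[]]).length ≤ W + 1 := by
  intro C
  cases C with
  | nil => simp
  | cons x C =>
    rw [List.foldr_cons, sub1]
    split_ifs with h
    · omega
    · simp

theorem subs_sz (W D : ℕ) : ∀ C : List ℕ, ∀ U ∈ C.foldr (sub1 W D) [[]], sz U ≤ sz C := by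
  intro C
  induction C with
  | nil =>
    intro U hU
    simp only [List.foldr_nil, List.mem_singleton] at hU
    subst hU
    exact le_rfl
  | cons x C ih =>
    intro U hU
    rw [List.foldr_cons, sub1] at hU
    rw [sz_list_cons]
    split_ifs at hU with h
    · simp only [sub0, List.mem_append, List.mem_map, List.mem_filter] at hU
      rcases hU with hU | ⟨U', ⟨hU', _⟩, rfl⟩
      · have := ih U hU
        omega
      · have := ih U' hU'
        rw [sz_list_cons]
        omega
    · simp at hU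

section

variable {α : Type} [TEnc α]

theorem poly_subs {W D : α → ℕ} {C : α → List ℕ} (hW : UPoly W) (hD : NPC.Poly D)
    (hC : NPC.Poly C) : NPC.Poly (fun a => subs (W a) (D a) (C a)) := by
  obtain ⟨p, hp⟩ := NPC.Poly.sz_le hW
  obtain ⟨q, hq⟩ := hC.sz_le
  refine NPC.Poly.foldr (s := fun _ => ([[]] : List (List ℕ)))
    (F := fun a x acc => sub1 (W a) (D a) x acc) hC (NPC.Poly.const [[]])
    (poly_sub1 (hW.toPoly.comp (NPC.Poly.fst NPC.Poly.id)) (hD.comp (NPC.Poly.fst NPC.Poly.id))
      (NPC.Poly.fst (NPC.Poly.snd NPC.Poly.id)) (NPC.Poly.snd (NPC.Poly.snd NPC.Poly.id)))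
    (p * (q + Polynomial.C 1) + Polynomial.C 1) ?_
  intro a k _
  have h1 := subs_len (W a) (D a) ((C a).drop k)
  have h2 := sz_le_length_mul (((C a).drop k).foldr (sub1 (W a) (D a)) [[]]) (sz (C a)) (by
    intro U hU
    exact (subs_sz (W a) (D a) _ U hU).trans (NPC.Poly.sz_drop_le _ _))
  refine h2.trans ?_
  have h3 := hp a
  have h4 := length_lt_sz (List.replicate (W a) ())
  rw [List.length_replicate] at h4
  have h5 := hq a
  simp only [Polynomial.eval_add, Polynomial.eval_mul, Polynomial.eval_C]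
  have h6 : (((C a).drop k).foldr (sub1 (W a) (D a)) [[]]).length * (sz (C a) + 1) ≤
      p.eval (sz a) * (q.eval (sz a) + 1) := Nat.mul_le_mul (by omega) (by omega)
  omega

theorem poly_score {W D : α → ℕ} {s : α → List (List Bool × Bool)} {R T : α → List ℕ}
    (hW : UPoly W) (hD : NPC.Poly D) (hs : NPC.Poly s) (hR : NPC.Poly R) (hT : NPC.Poly T) :
    NPC.Poly (fun a => score (W a) (D a) (s a) (R a) (T a)) := by
  unfold score
  refine NPC.Poly.sum (NPC.Poly.map (F := fun a U => sqd (agree (s a) (U ++ T a)) (s a).length)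
    (poly_subs hW hD hR) ?_)
  have hs' := hs.comp (g := s) (f := fun p : α × List ℕ => p.1) (NPC.Poly.fst NPC.Poly.id)
  exact poly_sqd (poly_agree hs' (NPC.Poly.append (NPC.Poly.snd NPC.Poly.id)
    (hT.comp (NPC.Poly.fst NPC.Poly.id)))) (NPC.Poly.length hs')

theorem poly_ok {W D Q : α → ℕ} {s : α → List (List Bool × Bool)} {R T : α → List ℕ}
    (hW : UPoly W) (hD : NPC.Poly D) (hQ : NPC.Poly Q) (hs : NPC.Poly s) (hR : NPC.Poly R)
    (hT : NPC.Poly T) : NPC.Poly (fun a => ok (W a) (D a) (Q a) (s a) (R a) (T a)) := by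
  unfold ok
  refine NPC.Poly.and (NPC.Poly.and (NPC.Poly.not (NPC.Poly.isEmpty hT)) (NPC.Poly.all
    (p := fun a i => !decide (i ∈ R a)) hT ?_)) (NPC.Poly.decide_le
      (NPC.Poly.mul (NPC.Poly.length hs) (NPC.Poly.length hs))
      (NPC.Poly.mul hQ (poly_score hW hD hs hR hT)))
  exact NPC.Poly.not (NPC.Poly.decide_mem (NPC.Poly.snd NPC.Poly.id)
    (hR.comp (NPC.Poly.fst NPC.Poly.id)))

theorem poly_step {W D Q n : α → ℕ} (k : ℕ) {s : α → List (List Bool × Bool)} {R : α → List ℕ}
    (hW : UPoly W) (hD : NPC.Poly D) (hQ : NPC.Poly Q) (hn : UPoly n) (hs : NPC.Poly s)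
    (hR : NPC.Poly R) : NPC.Poly (fun a => step (W a) (D a) k (Q a) (n a) (s a) (R a)) := by
  unfold step
  refine NPC.Poly.append ?_ hR
  have h1 : NPC.Poly (fun a => (subs (W a) k (List.range (n a))).filter
      (ok (W a) (D a) (Q a) (s a) (R a))) := by
    refine NPC.Poly.filter (p := fun a T => ok (W a) (D a) (Q a) (s a) (R a) T)
      (poly_subs hW (NPC.Poly.const k) hn.range) ?_
    exact poly_ok (hW.comp (NPC.Poly.fst NPC.Poly.id)) (hD.comp (NPC.Poly.fst NPC.Poly.id))
      (hQ.comp (NPC.Poly.fst NPC.Poly.id)) (hs.comp (NPC.Poly.fst NPC.Poly.id))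
      (hR.comp (NPC.Poly.fst NPC.Poly.id)) (NPC.Poly.snd NPC.Poly.id)
  exact (NPC.Poly.getD (d := fun _ => []) h1 (NPC.Poly.const 0) (NPC.Poly.const [])).congr
    fun a => by
      cases List.filter (ok (W a) (D a) (Q a) (s a) (R a)) (subs (W a) k (List.range (n a))) <;> rfl

theorem step_sz (W D k Q n : ℕ) (s : List (List Bool × Bool)) (R : List ℕ) :
    sz (step W D k Q n s R) ≤ sz R + sz (List.range n) := by
  unfold step
  have h1 : sz (((subs W k (List.range n)).filter (ok W D Q s R)).headD []) ≤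
      sz (List.range n) := by
    rcases h : (subs W k (List.range n)).filter (ok W D Q s R) with _ | ⟨T, L⟩
    · rw [List.headD_nil]
      exact sz_pos (List.range n)
    · rw [List.headD_cons]
      have h2 : T ∈ (subs W k (List.range n)).filter (ok W D Q s R) := by
        rw [h]
        simp
      exact subs_sz W k _ T (List.mem_of_mem_filter h2)
  have h2 := sz_append (((subs W k (List.range n)).filter (ok W D Q s R)).headD []) R
  omega

theorem run_sz (W D k Q n : ℕ) (s : List (List Bool × Bool)) : ∀ (L : List Unit) (R : List ℕ),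
    sz (L.foldl (fun R _ => step W D k Q n s R) R) ≤ sz R + L.length * sz (List.range n) := by
  intro L
  induction L with
  | nil => intro R; simp
  | cons u L ih =>
    intro R
    rw [List.foldl_cons, List.length_cons]
    have h1 := ih (step W D k Q n s R)
    have h2 := step_sz W D k Q n s R
    have h3 : (L.length + 1) * sz (List.range n) = L.length * sz (List.range n) +
      sz (List.range n) := by ring
    omega

theorem poly_run {W D Q n t : α → ℕ} (k : ℕ) {s : α → List (List Bool × Bool)}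
    (hW : UPoly W) (hD : NPC.Poly D) (hQ : NPC.Poly Q) (hn : UPoly n) (hs : NPC.Poly s)
    (ht : UPoly t) : NPC.Poly (fun a => run (W a) (D a) k (Q a) (n a) (s a) (t a)) := by
  obtain ⟨p, hp⟩ := NPC.Poly.sz_le ht
  obtain ⟨q, hq⟩ := NPC.Poly.sz_le hn.range
  unfold run
  refine NPC.Poly.foldl (s := fun _ => ([] : List ℕ))
    (F := fun a R _ => step (W a) (D a) k (Q a) (n a) (s a) R) ht (NPC.Poly.const [])
    (poly_step (α := α × List ℕ × Unit) (W := fun p => W p.1) (D := fun p => D p.1)
      (Q := fun p => Q p.1) (n := fun p => n p.1) (s := fun p => s p.1) (R := fun p => p.2.1) k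
      (hW.comp (NPC.Poly.fst NPC.Poly.id)) (hD.comp (NPC.Poly.fst NPC.Poly.id))
      (hQ.comp (NPC.Poly.fst NPC.Poly.id)) (hn.comp (NPC.Poly.fst NPC.Poly.id))
      (hs.comp (NPC.Poly.fst NPC.Poly.id)) (NPC.Poly.fst (NPC.Poly.snd NPC.Poly.id)))
    (Polynomial.C 1 + p * q) ?_
  intro a j _
  refine (run_sz (W a) (D a) k (Q a) (n a) (s a) ((List.replicate (t a) ()).take j) []).trans ?_
  have h3 := hp a
  have h4 := length_lt_sz (List.replicate (t a) ())
  rw [List.length_replicate] at h4
  have h5 := hq a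
  have h6 : ((List.replicate (t a) ()).take j).length ≤ p.eval (sz a) := by
    rw [List.length_take, List.length_replicate]
    omega
  have h7 := Nat.mul_le_mul h6 h5
  simp only [Polynomial.eval_add, Polynomial.eval_mul, Polynomial.eval_C, sz_list_nil]
  omega

theorem poly_out {W D : α → ℕ} {s : α → List (List Bool × Bool)} {R : α → List ℕ}
    (hW : UPoly W) (hD : NPC.Poly D) (hs : NPC.Poly s) (hR : NPC.Poly R) :
    NPC.Poly (fun a => out (W a) (D a) (s a) (R a)) := by
  unfold out
  refine NPC.Poly.map (F := fun a U => (U, agree (s a) U, (s a).length - agree (s a) U))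
    (poly_subs hW hD hR) ?_
  have hs' := hs.comp (g := s) (f := fun p : α × List ℕ => p.1) (NPC.Poly.fst NPC.Poly.id)
  have ha := poly_agree hs' (NPC.Poly.snd NPC.Poly.id)
  exact NPC.Poly.pair (NPC.Poly.snd NPC.Poly.id) (NPC.Poly.pair ha
    (NPC.Poly.sub (NPC.Poly.length hs') ha))

theorem filter_lt_range : ∀ m n : ℕ, m ≤ n →
    ((List.range n).filter (fun k => decide (k < m))).length = m := by
  intro m n hmn
  have : (List.range n).filter (fun k => decide (k < m)) = List.range m := by
    obtain ⟨d, rfl⟩ := Nat.exists_eq_add_of_le hmn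
    rw [List.range_add, List.filter_append]
    have h1 : (List.range m).filter (fun k => decide (k < m)) = List.range m := by
      rw [List.filter_eq_self]
      intro k hk
      simpa using hk
    have h2 : ((List.range d).map (fun x => m + x)).filter (fun k => decide (k < m)) = [] := by
      rw [List.filter_eq_nil_iff]
      intro k hk
      simp at hk ⊢
      omega
    rw [h1, h2, List.append_nil]
  rw [this, List.length_range]

theorem upoly_sqrt {n : α → ℕ} (hn : UPoly n) : UPoly (fun a => Nat.sqrt (n a)) := by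
  have h1 : NPC.Poly (fun a => (List.range (n a)).filter
      (fun k => decide ((k + 1) * (k + 1) ≤ n a))) :=
    NPC.Poly.filter (p := fun a k => decide ((k + 1) * (k + 1) ≤ n a)) hn.range
      (NPC.Poly.decide_le (NPC.Poly.mul (NPC.Poly.succ (NPC.Poly.snd NPC.Poly.id))
        (NPC.Poly.succ (NPC.Poly.snd NPC.Poly.id))) (hn.toPoly.comp (NPC.Poly.fst NPC.Poly.id)))
  refine (UPoly.length h1).congr fun a => ?_
  congr 1
  have h2 := filter_lt_range (Nat.sqrt (n a)) (n a) (Nat.sqrt_le_self _)
  have h3 : (List.range (n a)).filter (fun k => decide ((k + 1) * (k + 1) ≤ n a)) =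
      (List.range (n a)).filter (fun k => decide (k < Nat.sqrt (n a))) := by
    congr 1
    funext k
    rw [decide_eq_decide, ← Nat.le_sqrt, Nat.succ_le_iff]
  simp only [h3, h2]

theorem upoly_dg {t : α → ℕ} (ht : NPC.Poly t) : UPoly (fun a => dg (t a)) := by
  unfold dg
  refine upoly_sqrt ((UPoly.length (NPC.Poly.natBits ht)).congr fun a => ?_)
  simp only [Nat.size_eq_bits_len]

theorem poly_two_pow {n : α → ℕ} (hn : UPoly n) : NPC.Poly (fun a => 2 ^ n a) := by
  obtain ⟨p, hp⟩ := NPC.Poly.sz_le hn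
  have key : ∀ j : ℕ, (fun s : ℕ => 2 * s)^[j] 1 = 2 ^ j := by
    intro j
    induction j with
    | zero => rfl
    | succ j ih => rw [Function.iterate_succ_apply', ih, pow_succ, mul_comm]
  refine (NPC.Poly.iterLen (l := fun a => List.replicate (n a) ()) (s := fun _ => (1 : ℕ))
    (F := fun _ s => 2 * s) hn (NPC.Poly.const 1)
    (NPC.Poly.mul (NPC.Poly.const 2) (NPC.Poly.snd NPC.Poly.id))
    (Polynomial.C 4 * p + Polynomial.C 5) ?_).congr fun a => ?_
  · intro a j hj
    rw [key]
    have h1 := sz_nat_le (2 ^ j)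
    rw [Nat.size_pow] at h1
    have h3 := hp a
    have h4 := length_lt_sz (List.replicate (n a) ())
    simp only [List.length_replicate] at h4 hj
    simp only [Polynomial.eval_add, Polynomial.eval_mul, Polynomial.eval_C]
    omega
  · rw [List.length_replicate, key]

/-- The learner is a polynomial-time function. -/
theorem poly_learn (c e : ℕ) :
    NPC.Poly (fun z : List Unit × List (List Bool × Bool) => learn c e z.1.length z.2) := by
  have hz1 : NPC.Poly (fun z : List Unit × List (List Bool × Bool) => z.1) :=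
    NPC.Poly.fst NPC.Poly.id
  have hs : NPC.Poly (fun z : List Unit × List (List Bool × Bool) => z.2) :=
    NPC.Poly.snd NPC.Poly.id
  have ht : UPoly (fun z : List Unit × List (List Bool × Bool) => z.1.length) :=
    UPoly.length hz1
  have hD : UPoly (fun z : List Unit × List (List Bool × Bool) => dg z.1.length) :=
    upoly_dg ht.toPoly
  have hQ : NPC.Poly (fun z : List Unit × List (List Bool × Bool) => qq c e z.1.length) := by
    unfold qq
    exact poly_two_pow (UPoly.mul (UPoly.const (ka c e)) hD)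
  have hW : UPoly (fun z : List Unit × List (List Bool × Bool) => ww c e z.1.length) := by
    have h1 := UPoly.eval ht ((Polynomial.C 2 * Polynomial.X) ^ (ka c e + 1))
    simpa [ww] using h1
  have hhead : NPC.Poly (fun z : List Unit × List (List Bool × Bool) =>
      (z.2.headD ([], false)).1) :=
    NPC.Poly.fst ((NPC.Poly.getD (d := fun _ => (([], false) : List Bool × Bool)) hs
      (NPC.Poly.const 0) (NPC.Poly.const _)).congr fun z => by cases z.2 <;> rfl)
  have hn : UPoly (fun z : List Unit × List (List Bool × Bool) =>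
      (z.2.headD ([], false)).1.length) := UPoly.length hhead
  unfold learn
  exact poly_out hW hD.toPoly hs (poly_run (kk c e) hW hD.toPoly hQ hn hs ht)

theorem poly_hval' : NPC.Poly (fun z : Hyp × List Bool => hval z.1 z.2) :=
  poly_hval (NPC.Poly.fst NPC.Poly.id) (NPC.Poly.snd NPC.Poly.id)

end

end Pool.Agent.Helper92.AM
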