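import Pool.Agent.Helper92.AM.Main
import Pool.Agent.Helper92.AM.TM
import Pool.Agent.Helper92.AM.Dnf

set_option autoImplicit false

/-!
# The learner and its hypotheses as bit strings
-/

namespace Pool.Agent.Helper92.AM

open Finset
open Pool.Agent.NPC
open Pool.Agent.H637R3.UC

/-- The learner with the output as a bit string. -/
def learnBits (c e : ℕ) (z : List Unit × List (List Bool × Bool)) : List Bool :=
  bits (learn c e z.1.length z.2)

/-- The value of the hypothesis with a given code. -/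
def evalBits (z : List Bool × List Bool) : Bool :=
  match unbits Hyp z.1 with
  | none => false
  | some H => hval H z.2

theorem evalBits_bits (H : Hyp) (x : List Bool) : evalBits (bits H, x) = hval H x := by
  unfold evalBits
  simp only [unbits_bits]

theorem poly_learnBits (c e : ℕ) : NPC.Poly (learnBits c e) := by
  have h := poly_learn c e
  have h1 : PC (bits : List Unit × List (List Bool × Bool) → List Bool)
      (fun x : List Bool => x) (learnBits c e) := by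
    obtain ⟨c', p, h⟩ := h
    exact ⟨c', p, h⟩
  exact PC.comp (g := fun x : List Bool => x) PC.rawIn h1

theorem poly_evalBits : NPC.Poly evalBits := by
  have h := NPC.Poly.optCases (o := fun z : List Bool × List Bool => unbits Hyp z.1)
    (g := fun _ => false) (h := fun z H => hval H z.2)
    (poly_unbits.comp (NPC.Poly.fst NPC.Poly.id)) (NPC.Poly.const _)
    (poly_hval (NPC.Poly.snd NPC.Poly.id) (NPC.Poly.snd (NPC.Poly.fst NPC.Poly.id)))
  refine h.congr fun z => ?_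
  unfold evalBits
  cases unbits Hyp z.1 <;> rfl

theorem computed_of_poly {α β : Type} [TEnc α] [TDec α] [TEnc β] {f : α → β} (hf : NPC.Poly f) :
    ∃ g : List Bool → List Bool, PolyTime g ∧ ∀ z, g (bits z) = bits (f z) := by
  have h1 : NPC.Poly (fun x : List Bool => (unbits α x).map f) :=
    NPC.Poly.optMap (f := fun (_ : List Bool) a => f a) poly_unbits (hf.comp (NPC.Poly.snd NPC.Poly.id))
  refine ⟨_, polyTime_opt h1, fun a => ?_⟩
  simp only [unbits_bits, Option.map_some]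

/-- The probability of the event `E` for a random element of `α` with the uniform distribution. -/
noncomputable def prob {α : Type} [Fintype α] (E : α → Prop) : ℝ :=
  haveI := Classical.decPred E
  ((univ.filter E).card : ℝ) / Fintype.card α

theorem prob_eq {α : Type} [Fintype α] (E : α → Prop) [DecidablePred E] :
    prob E = ((univ.filter E).card : ℝ) / Fintype.card α := by
  unfold prob
  congr 3
  ext x
  simp

/-- The general theorem in terms of probabilities. -/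
theorem learn_prob {n c e q d t m : ℕ} (he : 1 ≤ e) (hq : 1 ≤ q) (hd : 1 ≤ d)
    (ht : ((n + 2) * q * d) ^ cc c e ≤ t) (hm : t ^ cc c e ≤ m)
    (f : (Fin n → Bool) → Bool) (σ : Fin n → Bool) (hσ : ∑ i, bad σ f i ≤ c)
    (hI : tinf (sf f) ^ 2 ≤ Real.logb 2 q) :
    prob (fun x : Fin m → Fin n → Bool => 1 / (e : ℝ) < prob (fun y : Fin n → Bool =>
      evalBits (learnBits c e (List.replicate t (), sample f x), List.ofFn y) ≠ f y)) ≤
      1 / d := by
  classical
  have h1 := learn_main he hq hd ht hm f σ hσ hI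
  rw [prob_eq]
  have h2 : ∀ x : Fin m → Fin n → Bool, (1 / (e : ℝ) < prob (fun y : Fin n → Bool =>
      evalBits (learnBits c e (List.replicate t (), sample f x), List.ofFn y) ≠ f y)) ↔
      2 ^ n < e * (univ.filter fun y : Fin n → Bool =>
        hval (learn c e t (sample f x)) (List.ofFn y) ≠ f y).card := by
    intro x
    rw [prob_eq]
    simp only [learnBits, evalBits_bits, List.length_replicate]
    rw [Fintype.card_fun, Fintype.card_bool, Fintype.card_fin, div_lt_div_iff₀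
      (by exact_mod_cast he) (by positivity), one_mul]
    rw [mul_comm]
    norm_cast
  have h3 : (univ.filter fun x : Fin m → Fin n → Bool => 1 / (e : ℝ) < prob (fun y : Fin n → Bool =>
      evalBits (learnBits c e (List.replicate t (), sample f x), List.ofFn y) ≠ f y)) =
      univ.filter fun x : Fin m → Fin n → Bool => 2 ^ n < e * (univ.filter fun y : Fin n → Bool =>
      hval (learn c e t (sample f x)) (List.ofFn y) ≠ f y).card := by
    ext x
    simp only [Finset.mem_filter, Finset.mem_univ, true_and]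
    exact h2 x
  rw [h3, Fintype.card_fun, Fintype.card_fun, Fintype.card_bool, Fintype.card_fin,
    Fintype.card_fin, div_le_div_iff₀ (by positivity) (by exact_mod_cast hd), one_mul]
  rw [← pow_mul]
  exact_mod_cast h1

theorem logb_pow_two (k : ℕ) : Real.logb 2 ((2 ^ k : ℕ) : ℝ) = k := by
  push_cast
  rw [Real.logb_pow]
  simp

theorem pow_step {A B C k t m : ℕ} (hA : 1 ≤ A) (hk : 1 ≤ k) (h : B ≤ A ^ k)
    (ht : A ^ (k * C) ≤ t) (hm : t ^ (k * C) ≤ m) : B ^ C ≤ t ∧ t ^ C ≤ m := by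
  have ht1 : 1 ≤ t := le_trans (Nat.one_le_pow _ _ hA) ht
  constructor
  · refine le_trans ?_ ht
    rw [pow_mul]
    exact Nat.pow_le_pow_left h _
  · exact le_trans (Nat.pow_le_pow_right ht1 (Nat.le_mul_of_pos_left _ hk)) hm

theorem dnf_calc {n s d ℓ : ℕ} (hs : 1 ≤ s) (hd : 1 ≤ d) :
    (n + 2) * (2 ^ 16 * s ^ (16 * (ℓ + 1))) * d ≤ ((n + 2) * s ^ (ℓ + 1) * d) ^ 17 := by
  have h1 : 2 ^ 16 ≤ (n + 2) ^ 16 := Nat.pow_le_pow_left (by omega) _
  have h2 : s ^ (16 * (ℓ + 1)) ≤ (s ^ (ℓ + 1)) ^ 17 := by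
    rw [← pow_mul]
    exact Nat.pow_le_pow_right hs (by omega)
  have h3 : d ≤ d ^ 17 := Nat.le_self_pow (by norm_num) _
  calc (n + 2) * (2 ^ 16 * s ^ (16 * (ℓ + 1))) * d
      ≤ (n + 2) * ((n + 2) ^ 16 * (s ^ (ℓ + 1)) ^ 17) * d ^ 17 :=
        Nat.mul_le_mul (Nat.mul_le_mul le_rfl (Nat.mul_le_mul h1 h2)) h3
    _ = ((n + 2) * s ^ (ℓ + 1) * d) ^ 17 := by ring

/-- The exponent for formulas. -/
def ca (c e : ℕ) : ℕ := 17 * cc c e

theorem dnf_prob {n c e s d t m : ℕ} (he : 1 ≤ e) (hs : 1 ≤ s) (hd : 1 ≤ d)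
    (ht : ((n + 2) * s ^ (Nat.log 2 s + 1) * d) ^ ca c e ≤ t) (hm : t ^ ca c e ≤ m)
    (F : List (List (ℕ × Bool))) (hF : F.length ≤ s) (σ : ℕ → Bool)
    (hσ : ∀ T ∈ F, (T.filter fun l => decide (l.2 ≠ σ l.1)).length ≤ c) :
    prob (fun x : Fin m → Fin n → Bool => 1 / (e : ℝ) < prob (fun y : Fin n → Bool =>
      evalBits (learnBits c e (List.replicate t (),
        sample (fun y => val F (List.ofFn y)) x), List.ofFn y) ≠ val F (List.ofFn y))) ≤
      1 / d := by
  obtain ⟨ℓ, hℓ⟩ : ∃ ℓ, ℓ = Nat.log 2 s := ⟨_, rfl⟩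
  rw [← hℓ] at ht
  have hA : 1 ≤ (n + 2) * s ^ (ℓ + 1) * d :=
    Nat.mul_pos (Nat.mul_pos (by omega) (Nat.pow_pos hs)) hd
  obtain ⟨q, hq⟩ : ∃ q, q = 2 ^ 16 * s ^ (16 * (ℓ + 1)) := ⟨_, rfl⟩
  have hq1 : 1 ≤ q := by
    rw [hq]
    exact Nat.mul_pos (by norm_num) (Nat.pow_pos hs)
  have hcalc := dnf_calc (n := n) (ℓ := ℓ) hs hd
  rw [← hq] at hcalc
  obtain ⟨h1, h2⟩ := pow_step hA (by norm_num) hcalc ht hm
  refine learn_prob he hq1 hd h1 h2 (fun y => val F (List.ofFn y)) (fun i => σ i)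
    (bad_dnf F σ hσ) ?_
  have h1 : s ≤ 2 ^ (ℓ + 1) := by
    rw [hℓ]
    exact (Nat.lt_pow_succ_log_self (by norm_num) s).le
  have h2 := tinf_dnf (n := n) F hF h1
  have h3 := tinf_nonneg (sf fun x : Fin n → Bool => val F (List.ofFn x))
  have h4 : tinf (sf fun x : Fin n → Bool => val F (List.ofFn x)) ^ 2 ≤
      (2 * ((ℓ + 1 : ℕ) + 1)) ^ 2 := pow_le_pow_left₀ h3 h2 2
  refine h4.trans ?_
  have h5 : 2 ^ (16 + ℓ * (16 * (ℓ + 1))) ≤ q := by
    rw [hq, pow_add, pow_mul 2 ℓ]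
    refine Nat.mul_le_mul_left _ (Nat.pow_le_pow_left ?_ _)
    rw [hℓ]
    exact Nat.pow_log_le_self 2 (by omega)
  have h6 := logb_mono (Nat.one_le_pow _ _ (by norm_num)) h5
  rw [logb_pow_two] at h6
  refine le_trans ?_ h6
  push_cast
  have h7 : (0 : ℝ) ≤ ℓ := Nat.cast_nonneg _
  nlinarith

theorem tree_calc {n s d k : ℕ} (hs : 1 ≤ s) (hd : 1 ≤ d) :
    (n + 2) * (2 ^ k * s ^ 2) * d ≤ ((n + 2) * s * d) ^ (k + 2) := by
  have h1 : 2 ^ k ≤ (n + 2) ^ k := Nat.pow_le_pow_left (by omega) _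
  have h2 : s ^ 2 ≤ s ^ (k + 2) := Nat.pow_le_pow_right hs (by omega)
  have h3 : d ≤ d ^ (k + 2) := Nat.le_self_pow (by omega) _
  have h4 : n + 2 ≤ (n + 2) ^ 2 := Nat.le_self_pow (by norm_num) _
  calc (n + 2) * (2 ^ k * s ^ 2) * d
      ≤ (n + 2) ^ 2 * ((n + 2) ^ k * s ^ (k + 2)) * d ^ (k + 2) :=
        Nat.mul_le_mul (Nat.mul_le_mul h4 (Nat.mul_le_mul h1 h2)) h3
    _ = ((n + 2) * s * d) ^ (k + 2) := by
        rw [mul_pow, mul_pow, pow_add (n + 2)]
        ring

/-- The exponent for trees. -/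
def cb (c e : ℕ) : ℕ := (32 * c ^ 2 + 2) * cc c e

theorem tree_prob {n c e s d t m : ℕ} (he : 1 ≤ e) (hd : 1 ≤ d)
    (ht : ((n + 2) * s * d) ^ cb c e ≤ t) (hm : t ^ cb c e ≤ m)
    (f : (Fin n → Bool) → Bool) (T : Tree) (hT : ∀ x, f x = T.eval (List.ofFn x))
    (hs : T.leaves ≤ s) (σ : Fin n → Bool) (hσ : ∑ i, bad σ f i ≤ c) :
    prob (fun x : Fin m → Fin n → Bool => 1 / (e : ℝ) < prob (fun y : Fin n → Bool =>
      evalBits (learnBits c e (List.replicate t (), sample f x), List.ofFn y) ≠ f y)) ≤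
      1 / d := by
  have hs1 : 1 ≤ s := T.one_le.trans hs
  have hA : 1 ≤ (n + 2) * s * d := Nat.mul_pos (Nat.mul_pos (by omega) hs1) hd
  obtain ⟨k, hk⟩ : ∃ k, k = 32 * c ^ 2 := ⟨_, rfl⟩
  obtain ⟨q, hq⟩ : ∃ q, q = 2 ^ k * s ^ 2 := ⟨_, rfl⟩
  have hq1 : 1 ≤ q := by
    rw [hq]
    exact Nat.mul_pos (Nat.pow_pos (by norm_num)) (Nat.pow_pos hs1)
  unfold cb at ht hm
  rw [← hk] at ht hm
  have hcalc := tree_calc (n := n) (k := k) hs1 hd
  rw [← hq] at hcalc
  obtain ⟨e1, e2⟩ := pow_step hA (by omega) hcalc ht hm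
  refine learn_prob he hq1 hd e1 e2 f σ hσ ?_
  have h1 := tinf_tree σ f T hT
  have h2 := logb_mono T.one_le hs
  have h0 := logb_nonneg' T.leaves
  have h3 : √(Real.logb 2 T.leaves) ≤ √(Real.logb 2 s) := Real.sqrt_le_sqrt h2
  have h4 := tinf_nonneg (sf f)
  have h5 : tinf (sf f) ≤ √(Real.logb 2 s) + 4 * c := by linarith
  have h6 : tinf (sf f) ^ 2 ≤ (√(Real.logb 2 s) + 4 * c) ^ 2 := pow_le_pow_left₀ h4 h5 2
  refine h6.trans ?_
  have h7 : Real.logb 2 (q : ℝ) = 32 * c ^ 2 + 2 * Real.logb 2 s := by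
    have hs0 : (s : ℝ) ≠ 0 := by
      have : (1 : ℝ) ≤ s := by exact_mod_cast hs1
      positivity
    rw [hq]
    push_cast
    rw [Real.logb_mul (by positivity) (by positivity), Real.logb_pow, Real.logb_pow, hk]
    simp
  rw [h7]
  have h8 := Real.sq_sqrt (logb_nonneg' s)
  nlinarith [sq_nonneg (√(Real.logb 2 s) - 4 * c)]

end Pool.Agent.Helper92.AM
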