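import Pool.Agent.Helper92.AM.Bridge

set_option autoImplicit false

/-!
# The learner: definition, and the meaning of its parts
-/

namespace Pool.Agent.Helper92.AM

open Finset
open Pool.Agent.H637R3.UC

/-- A hypothesis: a list of parities (sets of coordinates), each with two weights. -/
abbrev Hyp : Type := List (List ℕ × ℕ × ℕ)

/-- Parity of the coordinates in `S`. -/
def par (S : List ℕ) (x : List Bool) : Bool :=
  decide ((S.filter fun i => x.getD i false).length % 2 = 1)

/-- Value of a hypothesis: a weighted vote of parities. -/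
def hval (H : Hyp) (x : List Bool) : Bool :=
  decide ((H.map fun q => if par q.1 x then q.2.1 else q.2.2).sum ≤
    (H.map fun q => if par q.1 x then q.2.2 else q.2.1).sum)

/-- Number of examples whose label agrees with the character. -/
def agree (s : List (List Bool × Bool)) (S : List ℕ) : ℕ :=
  (s.filter fun z => xor z.2 (par S z.1)).length

/-- `(2 a - m) ^ 2`. -/
def sqd (a m : ℕ) : ℕ := (2 * a - m) * (2 * a - m) + (m - 2 * a) * (m - 2 * a)

/-- One step of the list of the small subsets, without a cap. -/
def sub0 (D : ℕ) (a : ℕ) (acc : List (List ℕ)) : List (List ℕ) :=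
  acc ++ (acc.filter fun t => decide (t.length < D)).map fun t => a :: t

/-- One step of the list of the small subsets. -/
def sub1 (W D : ℕ) (a : ℕ) (acc : List (List ℕ)) : List (List ℕ) :=
  if (sub0 D a acc).length ≤ W then sub0 D a acc else []

/-- The sublists of length at most `D`. -/
def subs0 (D : ℕ) (C : List ℕ) : List (List ℕ) := C.foldr (sub0 D) [[]]

/-- The sublists of length at most `D`, with a cap for the number. -/
def subs (W D : ℕ) (C : List ℕ) : List (List ℕ) := C.foldr (sub1 W D) [[]]

def score (W D : ℕ) (s : List (List Bool × Bool)) (R T : List ℕ) : ℕ :=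
  ((subs W D R).map fun U => sqd (agree s (U ++ T)) s.length).sum

def ok (W D Q : ℕ) (s : List (List Bool × Bool)) (R T : List ℕ) : Bool :=
  !T.isEmpty && (T.all fun i => !decide (i ∈ R)) &&
    decide (s.length * s.length ≤ Q * score W D s R T)

/-- Add the first detected set of coordinates. -/
def step (W D k Q n : ℕ) (s : List (List Bool × Bool)) (R : List ℕ) : List ℕ :=
  (((subs W k (List.range n)).filter (ok W D Q s R)).headD []) ++ R

def run (W D k Q n : ℕ) (s : List (List Bool × Bool)) (t : ℕ) : List ℕ :=
  (List.replicate t ()).foldl (fun R _ => step W D k Q n s R) []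

def out (W D : ℕ) (s : List (List Bool × Bool)) (R : List ℕ) : Hyp :=
  (subs W D R).map fun U => (U, agree s U, s.length - agree s U)

variable {n : ℕ}

/-- The set of a list. -/
def fs (L : List ℕ) : Finset (Fin n) := univ.filter fun i => (i : ℕ) ∈ L

theorem mem_fs {L : List ℕ} {i : Fin n} : i ∈ fs L ↔ (i : ℕ) ∈ L := by simp [fs]

/-- A list of different coordinates. -/
def Fine (n : ℕ) (L : List ℕ) : Prop := L.Nodup ∧ ∀ i ∈ L, i < n

theorem card_fs {L : List ℕ} (h : Fine n L) : (fs L : Finset (Fin n)).card = L.length := by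
  rw [← List.toFinset_card_of_nodup h.1, ← Finset.card_map Fin.valEmbedding]
  congr 1
  ext i
  simp only [Finset.mem_map, mem_fs, Fin.valEmbedding_apply, List.mem_toFinset]
  constructor
  · rintro ⟨j, hj, rfl⟩
    exact hj
  · intro hi
    exact ⟨⟨i, h.2 i hi⟩, hi, rfl⟩

theorem fs_cons {a : ℕ} (ha : a < n) (L : List ℕ) :
    (fs (a :: L) : Finset (Fin n)) = insert ⟨a, ha⟩ (fs L) := by
  ext i
  simp only [mem_fs, List.mem_cons, Finset.mem_insert, Fin.ext_iff]

theorem fs_append (L L' : List ℕ) : (fs (L ++ L') : Finset (Fin n)) = fs L ∪ fs L' := by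
  ext i
  simp [mem_fs]

theorem Fine.sublist {L L' : List ℕ} (h : Fine n L) (hs : L'.Sublist L) : Fine n L' :=
  ⟨h.1.sublist hs, fun i hi => h.2 i (hs.subset hi)⟩

theorem Fine.append {L L' : List ℕ} (h : Fine n L) (h' : Fine n L') (hd : ∀ i ∈ L, i ∉ L') :
    Fine n (L ++ L') := by
  refine ⟨List.nodup_append.2 ⟨h.1, h'.1, fun a ha b hb hab => hd a ha (hab ▸ hb)⟩, ?_⟩
  intro i hi
  rcases List.mem_append.1 hi with hi | hi
  · exact h.2 i hi
  · exact h'.2 i hi

theorem mem_subs0 (D : ℕ) : ∀ (C U : List ℕ), U ∈ subs0 D C → U.Sublist C ∧ U.length ≤ D := by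
  intro C
  induction C with
  | nil =>
    intro U hU
    simp only [subs0, List.foldr_nil, List.mem_singleton] at hU
    subst hU
    simp
  | cons a C ih =>
    intro U hU
    simp only [subs0, List.foldr_cons, sub0, List.mem_append, List.mem_map, List.mem_filter,
      decide_eq_true_eq] at hU
    rcases hU with hU | ⟨U', ⟨hU', hlt⟩, rfl⟩
    · have := ih U hU
      exact ⟨this.1.cons a, this.2⟩
    · have := ih U' hU'
      exact ⟨this.1.cons_cons a, by simpa using hlt⟩

theorem subs0_sum (D : ℕ) : ∀ (R : List ℕ), Fine n R → ∀ g : Finset (Fin n) → ℝ,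
    ((subs0 D R).map fun U => g (fs U)).sum =
      ∑ U ∈ (fs R : Finset (Fin n)).powerset.filter (fun U => U.card ≤ D), g U := by
  intro R
  induction R with
  | nil =>
    intro _ g
    have h1 : (fs [] : Finset (Fin n)) = ∅ := by
      ext i
      simp [mem_fs]
    simp [subs0, h1, Finset.filter_singleton]
  | cons a R ih =>
    intro hR g
    have ha : a < n := hR.2 a (by simp)
    have hR' : Fine n R := hR.sublist (List.sublist_cons_self a R)
    have haR : a ∉ R := (List.nodup_cons.1 hR.1).1
    have ha' : (⟨a, ha⟩ : Fin n) ∉ (fs R : Finset (Fin n)) := by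
      rw [mem_fs]
      exact haR
    have e1 : subs0 D (a :: R) = sub0 D a (subs0 D R) := rfl
    rw [e1, sub0, List.map_append, List.sum_append, List.map_map]
    have e2 : (((subs0 D R).filter fun t => decide (t.length < D)).map
        ((fun U => g (fs U)) ∘ fun t => a :: t)).sum =
        ((subs0 D R).map fun U => (fun X : Finset (Fin n) =>
          if X.card < D then g (insert ⟨a, ha⟩ X) else 0) (fs U)).sum := by
      have key : ∀ L : List (List ℕ), (∀ U ∈ L, Fine n U) →
          ((L.filter fun t => decide (t.length < D)).map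
            ((fun U => g (fs U)) ∘ fun t => a :: t)).sum =
          (L.map fun U => (fun X : Finset (Fin n) =>
            if X.card < D then g (insert ⟨a, ha⟩ X) else 0) (fs U)).sum := by
        intro L
        induction L with
        | nil => intro _; simp
        | cons U L ihL =>
          intro hL
          have h1 := hL U (by simp)
          have h2 := ihL fun V hV => hL V (List.mem_cons_of_mem _ hV)
          rw [List.filter_cons, List.map_cons, List.sum_cons, ← h2]
          simp only [card_fs h1]
          by_cases h3 : U.length < D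
          · simp only [h3, decide_true, if_true, List.map_cons, List.sum_cons,
              Function.comp_apply, fs_cons ha]
          · simp only [h3, decide_false, Bool.false_eq_true, if_false, zero_add]
      exact key _ fun U hU => hR'.sublist (mem_subs0 D R U hU).1
    rw [e2, ih hR', ih hR' (fun X => if X.card < D then g (insert ⟨a, ha⟩ X) else 0), fs_cons ha,
      Finset.sum_filter, Finset.sum_filter, Finset.sum_filter, Finset.sum_powerset_insert ha']
    congr 1
    refine Finset.sum_congr rfl fun X hX => ?_
    have h1 : (⟨a, ha⟩ : Fin n) ∉ X := fun h => ha' (Finset.mem_powerset.1 hX h)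
    rw [Finset.card_insert_of_notMem h1]
    by_cases h2 : X.card < D
    · rw [if_pos h2, if_pos (by omega), if_pos (by omega)]
    · by_cases h3 : X.card ≤ D
      · rw [if_neg h2, if_pos h3, if_neg (by omega)]
      · rw [if_neg h2, if_neg h3, if_neg (by omega)]

theorem subs0_length (D : ℕ) (R : List ℕ) (hR : Fine n R) :
    (subs0 D R).length = ((fs R : Finset (Fin n)).powerset.filter (fun U => U.card ≤ D)).card := by
  have h := subs0_sum D R hR (fun _ => (1 : ℝ))
  simp only [List.map_const', List.sum_replicate, Finset.sum_const, nsmul_eq_mul, mul_one] at h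
  exact_mod_cast h

theorem subs0_length_le (D : ℕ) (R : List ℕ) (hR : Fine n R) :
    (subs0 D R).length ≤ (R.length + 1) ^ D := by
  rw [subs0_length D R hR, ← card_fs hR]
  exact card_small _ _

theorem subs_eq (W D : ℕ) : ∀ (R : List ℕ), Fine n R → (R.length + 1) ^ D ≤ W →
    subs W D R = subs0 D R := by
  intro R
  induction R with
  | nil => intro _ _; rfl
  | cons a R ih =>
    intro hR hW
    have hR' : Fine n R := hR.sublist (List.sublist_cons_self a R)
    have h1 : (R.length + 1) ^ D ≤ W :=
      (Nat.pow_le_pow_left (by rw [List.length_cons]; omega) D).trans hW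
    have h2 := subs0_length_le D (a :: R) hR
    have e1 : subs W D (a :: R) = sub1 W D a (subs W D R) := rfl
    have e2 : subs0 D (a :: R) = sub0 D a (subs0 D R) := rfl
    rw [e1, e2, ih hR' h1, sub1, if_pos]
    rw [← e2]
    exact h2.trans hW

theorem subs_sum {W D : ℕ} {R : List ℕ} (hR : Fine n R) (hW : (R.length + 1) ^ D ≤ W)
    (g : Finset (Fin n) → ℝ) : ((subs W D R).map fun U => g (fs U)).sum =
      ∑ U ∈ (fs R : Finset (Fin n)).powerset.filter (fun U => U.card ≤ D), g U := by
  rw [subs_eq W D R hR hW, subs0_sum D R hR]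

theorem mem_subs {W D : ℕ} {R U : List ℕ} (hR : Fine n R) (hW : (R.length + 1) ^ D ≤ W)
    (hU : U ∈ subs W D R) : U.Sublist R ∧ U.length ≤ D := by
  rw [subs_eq W D R hR hW] at hU
  exact mem_subs0 D R U hU

theorem exists_subs {W D : ℕ} {R : List ℕ} (hR : Fine n R) (hW : (R.length + 1) ^ D ≤ W)
    (T : Finset (Fin n)) (hT : T ⊆ fs R) (hc : T.card ≤ D) : ∃ U ∈ subs W D R, fs U = T := by
  by_contra hcon
  push Not at hcon
  have h1 := subs_sum hR hW (fun X => if X = T then (1 : ℝ) else 0)
  have h2 : ((subs W D R).map fun U => (fun X : Finset (Fin n) => if X = T then (1 : ℝ) else 0)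
      (fs U)).sum = 0 := by
    refine List.sum_eq_zero fun y hy => ?_
    rw [List.mem_map] at hy
    obtain ⟨U, hU, rfl⟩ := hy
    exact if_neg (hcon U hU)
  rw [h2, Finset.sum_ite_eq', if_pos] at h1
  · norm_num at h1
  · simp only [Finset.mem_filter, Finset.mem_powerset]
    exact ⟨hT, hc⟩

/-! ### Parities -/

/-- The character of `S`. -/
def chi (S : Finset (Fin n)) (x : Fin n → Bool) : ℝ := ∏ i ∈ S, (if x i then -1 else 1)

theorem getD_ofFn (x : Fin n → Bool) (i : Fin n) : (List.ofFn x).getD i false = x i := by
  rw [List.getD_eq_getElem?_getD, List.getElem?_ofFn]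
  simp

theorem chi_eq {S : List ℕ} (hS : Fine n S) (x : Fin n → Bool) :
    chi (fs S) x = if par S (List.ofFn x) then -1 else 1 := by
  have h1 : chi (fs S) x = (-1) ^ ((fs S : Finset (Fin n)).filter fun i => x i = true).card := by
    unfold chi
    rw [Finset.prod_ite]
    simp
  have h2 : ((fs S : Finset (Fin n)).filter fun i => x i = true) =
      fs (S.filter fun i => (List.ofFn x).getD i false) := by
    ext i
    simp only [Finset.mem_filter, mem_fs, List.mem_filter, getD_ofFn]
  rw [h1, h2, card_fs (hS.sublist List.filter_sublist)]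
  unfold par
  set c := (S.filter fun i => (List.ofFn x).getD i false).length
  rcases Nat.even_or_odd c with h | h
  · rw [h.neg_one_pow, if_neg]
    simp [Nat.even_iff.1 h]
  · rw [h.neg_one_pow, if_pos]
    simp [Nat.odd_iff.1 h]

theorem cf_sf' (f : (Fin n → Bool) → Bool) (S : Finset (Fin n)) :
    cf (sf f) S = (∑ x, pm (f x) * chi S x) / 2 ^ n := cf_sf f S

/-- The labelled sample. -/
def sample {m : ℕ} (f : (Fin n → Bool) → Bool) (x : Fin m → Fin n → Bool) :
    List (List Bool × Bool) := List.ofFn fun j => (List.ofFn (x j), f (x j))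

theorem sample_length {m : ℕ} (f : (Fin n → Bool) → Bool) (x : Fin m → Fin n → Bool) :
    (sample f x).length = m := by simp [sample]

theorem agree_le (s : List (List Bool × Bool)) (S : List ℕ) : agree s S ≤ s.length :=
  List.length_filter_le _ _

theorem agree_sum {m : ℕ} (f : (Fin n → Bool) → Bool) (x : Fin m → Fin n → Bool) {S : List ℕ}
    (hS : Fine n S) :
    2 * (agree (sample f x) S : ℝ) - m = ∑ j, pm (f (x j)) * chi (fs S) (x j) := by
  have key : ∀ s : List (List Bool × Bool), 2 * ((s.filter fun z => xor z.2 (par S z.1)).length : ℝ) -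
      s.length = (s.map fun z => pm z.2 * (if par S z.1 then -1 else 1)).sum := by
    intro s
    induction s with
    | nil => simp
    | cons z s ih =>
      rw [List.filter_cons, List.map_cons, List.sum_cons, ← ih]
      obtain ⟨y, b⟩ := z
      cases b <;> cases h : par S y <;> simp [pm] <;> ring
  have h1 := key (sample f x)
  rw [sample_length] at h1
  unfold agree
  rw [h1, sample, List.map_ofFn, List.sum_ofFn]
  refine Finset.sum_congr rfl fun j _ => ?_
  rw [chi_eq hS]
  rfl

theorem sqd_eq (a m : ℕ) : (sqd a m : ℝ) = (2 * (a : ℝ) - m) ^ 2 := by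
  unfold sqd
  rcases le_total m (2 * a) with h | h
  · rw [Nat.sub_eq_zero_of_le h]
    push_cast [Nat.cast_sub h]
    ring
  · rw [Nat.sub_eq_zero_of_le h]
    push_cast [Nat.cast_sub h]
    ring

/-- The empirical coefficient. -/
noncomputable def emp {m : ℕ} (f : (Fin n → Bool) → Bool) (x : Fin m → Fin n → Bool)
    (S : Finset (Fin n)) : ℝ := (∑ j, pm (f (x j)) * chi S (x j)) / m

theorem score_eq {m W D : ℕ} (hm : 0 < m) (f : (Fin n → Bool) → Bool) (x : Fin m → Fin n → Bool)
    {R T : List ℕ} (hR : Fine n R) (hT : Fine n T) (hd : ∀ i ∈ R, i ∉ T)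
    (hW : (R.length + 1) ^ D ≤ W) :
    (score W D (sample f x) R T : ℝ) = (m : ℝ) ^ 2 *
      ∑ U ∈ (fs R : Finset (Fin n)).powerset.filter (fun U => U.card ≤ D),
        emp f x (U ∪ fs T) ^ 2 := by
  have hm' : (m : ℝ) ≠ 0 := by positivity
  rw [← subs_sum hR hW (fun U => emp f x (U ∪ fs T) ^ 2), score, sample_length]
  have key : ∀ L : List (List ℕ), (∀ U ∈ L, U.Sublist R) →
      (((L.map fun U => sqd (agree (sample f x) (U ++ T)) m).sum : ℕ) : ℝ) =
      (m : ℝ) ^ 2 * (L.map fun U => (fun U => emp f x (U ∪ fs T) ^ 2) (fs U)).sum := by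
    intro L
    induction L with
    | nil => intro _; simp
    | cons U L ih =>
      intro hL
      have h1 := ih fun V hV => hL V (List.mem_cons_of_mem _ hV)
      have hU := hL U (by simp)
      have hUT : Fine n (U ++ T) :=
        (hR.sublist hU).append hT fun i hi => hd i (hU.subset hi)
      rw [List.map_cons, List.sum_cons, List.map_cons, List.sum_cons, Nat.cast_add, h1, sqd_eq,
        agree_sum f x hUT, mul_add, fs_append]
      congr 1
      simp only [emp, div_pow]
      field_simp
  exact key _ fun U hU => (mem_subs hR hW hU).1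

theorem hval_out {m W D : ℕ} (hm : 0 < m) (f : (Fin n → Bool) → Bool)
    (x : Fin m → Fin n → Bool) {R : List ℕ} (hR : Fine n R) (hW : (R.length + 1) ^ D ≤ W)
    (y : Fin n → Bool) : hval (out W D (sample f x) R) (List.ofFn y) =
      decide (0 ≤ ∑ U ∈ (fs R : Finset (Fin n)).powerset.filter (fun U => U.card ≤ D),
        emp f x U * chi U y) := by
  have hm' : (0 : ℝ) < m := by positivity
  rw [← subs_sum hR hW (fun U => emp f x U * chi U y)]
  unfold hval out
  rw [decide_eq_decide]
  simp only [List.map_map, sample_length]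
  have key : ∀ L : List (List ℕ), (∀ U ∈ L, U.Sublist R) →
      (((L.map ((fun q : List ℕ × ℕ × ℕ => if par q.1 (List.ofFn y) then q.2.2 else q.2.1) ∘
        fun U => (U, agree (sample f x) U, m - agree (sample f x) U))).sum : ℕ) : ℝ) -
      (((L.map ((fun q : List ℕ × ℕ × ℕ => if par q.1 (List.ofFn y) then q.2.1 else q.2.2) ∘
        fun U => (U, agree (sample f x) U, m - agree (sample f x) U))).sum : ℕ) : ℝ) =
      m * (L.map fun U => (fun U => emp f x U * chi U y) (fs U)).sum := by
    intro L
    induction L with
    | nil => intro _; simp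
    | cons U L ih =>
      intro hL
      have h1 := ih fun V hV => hL V (List.mem_cons_of_mem _ hV)
      have hU := hL U (by simp)
      have hUf : Fine n U := hR.sublist hU
      have h2 := agree_sum f x hUf
      have h3 := agree_le (sample f x) U
      rw [sample_length] at h3
      rw [List.map_cons, List.sum_cons, List.map_cons, List.sum_cons, List.map_cons, List.sum_cons,
        mul_add, ← h1]
      simp only [Function.comp_apply, chi_eq hUf]
      unfold emp
      rw [← h2]
      split_ifs <;> push_cast [Nat.cast_sub h3] <;> field_simp <;> ring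
  have h4 := key (subs W D R) fun U hU => (mem_subs hR hW hU).1
  rw [← Nat.cast_le (α := ℝ), ← sub_nonneg, h4]
  exact mul_nonneg_iff_of_pos_left hm'

end Pool.Agent.Helper92.AM
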