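import Pool.Agent.Helper92.AM.Correct

set_option autoImplicit false

/-!
# The choice of the parameters
-/

namespace Pool.Agent.Helper92.AM

open Finset
open Pool.Agent.H637R3.UC

/-- the degree -/
def dg (t : ℕ) : ℕ := Nat.sqrt (Nat.size t)

/-- the number of new coordinates in a test -/
def kk (c e : ℕ) : ℕ := 64 * (c + 1) * e

/-- the exponent of the inverse threshold -/
def ka (c e : ℕ) : ℕ := 7 * kk c e + 1

/-- the inverse threshold -/
def qq (c e t : ℕ) : ℕ := 2 ^ (ka c e * dg t)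

/-- the cap -/
def ww (c e t : ℕ) : ℕ := (2 * t) ^ (ka c e + 1)

/-- The learner. -/
def learn (c e t : ℕ) (s : List (List Bool × Bool)) : Hyp :=
  out (ww c e t) (dg t) s (run (ww c e t) (dg t) (kk c e) (qq c e t)
    (s.headD ([], false)).1.length s t)

/-- a lower bound for the degree -/
def d0 (c e : ℕ) : ℕ := 16 * e * (65 * e ^ 2) ^ kk c e + 3 * kk c e + ka c e + 2

theorem dg_sq_le (t : ℕ) : dg t ^ 2 ≤ Nat.size t := by
  have := Nat.sqrt_le (Nat.size t)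
  rw [sq]
  exact this

theorem lt_dg_sq (t : ℕ) : Nat.size t < (dg t + 1) ^ 2 := by
  have := Nat.lt_succ_sqrt (Nat.size t)
  rw [sq]
  exact this

theorem pow_size_le {t : ℕ} (ht : 1 ≤ t) : 2 ^ Nat.size t ≤ 2 * t := by
  have h1 : 0 < Nat.size t := Nat.size_pos.2 ht
  have h2 : 2 ^ (Nat.size t - 1) ≤ t := Nat.lt_size.1 (by omega)
  calc 2 ^ Nat.size t = 2 ^ (Nat.size t - 1 + 1) := by
        congr 1
        omega
    _ = 2 * 2 ^ (Nat.size t - 1) := by ring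
    _ ≤ 2 * t := Nat.mul_le_mul_left 2 h2

theorem pow_dg_sq_le {t : ℕ} (ht : 1 ≤ t) : 2 ^ (dg t ^ 2) ≤ 2 * t :=
  (Nat.pow_le_pow_right (by norm_num) (dg_sq_le t)).trans (pow_size_le ht)

section

variable {c e t : ℕ}

theorem d0_pos : 2 ≤ d0 c e := by unfold d0; omega

theorem q_big (he : 1 ≤ e) (hD : d0 c e ≤ dg t) :
    16 * e * (65 * e ^ 2 * (2 ^ dg t) ^ 7) ^ kk c e ≤ qq c e t := by
  have h1 : 16 * e * (65 * e ^ 2) ^ kk c e ≤ 2 ^ dg t := by
    refine le_trans ?_ (Nat.lt_two_pow_self (n := dg t)).le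
    unfold d0 at hD
    omega
  have h2 : qq c e t = 2 ^ dg t * ((2 ^ dg t) ^ 7) ^ kk c e := by
    unfold qq ka
    rw [← pow_mul, ← pow_mul, ← pow_add]
    congr 1
    ring
  rw [h2, mul_pow, ← mul_assoc]
  exact Nat.mul_le_mul_right _ h1

theorem kk_pos (he : 1 ≤ e) : 64 ≤ kk c e := by
  unfold kk
  nlinarith [Nat.zero_le c, Nat.mul_le_mul (Nat.le_add_left 1 c) he]

theorem cap_run (hD : d0 c e ≤ dg t) (ht : 1 ≤ t) :
    (2 * qq c e t * kk c e + 1) ^ dg t ≤ ww c e t := by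
  have h1 : 3 * kk c e ≤ 2 ^ dg t := by
    refine le_trans ?_ (Nat.lt_two_pow_self (n := dg t)).le
    unfold d0 at hD
    omega
  have h2 : 1 ≤ qq c e t := Nat.one_le_two_pow
  have h0 : 1 ≤ kk c e ∨ kk c e = 0 := by omega
  have h3 : 2 * qq c e t * kk c e + 1 ≤ (2 ^ dg t) ^ (ka c e + 1) := by
    have h4 : (2 ^ dg t) ^ (ka c e + 1) = qq c e t * 2 ^ dg t := by
      unfold qq
      rw [pow_succ, ← pow_mul, mul_comm (dg t)]
    rw [h4]
    rcases h0 with h0 | h0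
    · calc 2 * qq c e t * kk c e + 1 ≤ 2 * qq c e t * kk c e + qq c e t * kk c e :=
            Nat.add_le_add_left (Nat.mul_le_mul h2 h0) _
        _ = qq c e t * (3 * kk c e) := by ring
        _ ≤ _ := Nat.mul_le_mul_left _ h1
    · rw [h0]
      have := Nat.mul_le_mul h2 (Nat.one_le_two_pow (n := dg t))
      simpa using this
  calc (2 * qq c e t * kk c e + 1) ^ dg t ≤ ((2 ^ dg t) ^ (ka c e + 1)) ^ dg t :=
        Nat.pow_le_pow_left h3 _
    _ = (2 ^ (dg t ^ 2)) ^ (ka c e + 1) := by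
        rw [← pow_mul, ← pow_mul, ← pow_mul]
        congr 1
        ring
    _ ≤ (2 * t) ^ (ka c e + 1) := Nat.pow_le_pow_left (pow_dg_sq_le ht) _

theorem rounds (hD : d0 c e ≤ dg t) (ht : 1 ≤ t) : 2 * qq c e t < t := by
  have h1 : ka c e + 2 ≤ dg t := by
    unfold d0 at hD
    omega
  have h2 : 2 ^ (dg t ^ 2) ≤ 2 * t := pow_dg_sq_le ht
  have h3 : ka c e * dg t + 3 ≤ dg t ^ 2 := by nlinarith
  have h4 : 2 ^ (ka c e * dg t + 3) ≤ 2 * t := (Nat.pow_le_pow_right (by norm_num) h3).trans h2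
  unfold qq
  rw [pow_add] at h4
  have h5 : 0 < 2 ^ (ka c e * dg t) := by positivity
  omega

theorem qq_le (hD : d0 c e ≤ dg t) (ht : 1 ≤ t) : qq c e t ≤ t := by
  have := rounds hD ht
  omega

end

theorem residual_param {n c e t : ℕ} (he : 1 ≤ e) (hD : d0 c e ≤ dg t)
    (f : (Fin n → Bool) → Bool) (σ : Fin n → Bool) (hσ : ∑ i, bad σ f i ≤ c)
    (hI : 8 * e * tinf (sf f) ≤ dg t + 1) (R : Finset (Fin n))
    (hq : Quiet f (dg t) (kk c e) (2 / (qq c e t : ℕ)) R) :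
    ∑ S ∈ univ.filter (fun S : Finset (Fin n) => ¬ (S ⊆ R ∧ S.card ≤ dg t)),
      cf (sf f) S ^ 2 ≤ 1 / (2 * e) := by
  set D := dg t with hDdef
  set k := kk c e with hk
  set Q := qq c e t with hQ
  set T0 := tinf (sf f) with hT0
  have hT0' : 0 ≤ T0 := tinf_nonneg _
  have hQpos : 0 < Q := by
    rw [hQ]
    exact Nat.pow_pos (by norm_num)
  have hQ' : (0 : ℝ) < Q := by exact_mod_cast hQpos
  have he' : (1 : ℝ) ≤ e := by exact_mod_cast he
  have hD1 : 1 ≤ D := le_trans (le_trans (by norm_num) (d0_pos (c := c) (e := e))) hD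
  have hD' : (1 : ℝ) ≤ D := by exact_mod_cast hD1
  have hk64 : 64 ≤ k := kk_pos he
  have hT0D : T0 ≤ D := by nlinarith
  set s : ℝ := 1 / (8 * e * D * 3 ^ D) with hs
  have hs0 : 0 < s := by positivity
  set M : ℝ := D / s ^ 2 with hM
  have hM0 : 0 ≤ M := by positivity
  have hMs : T0 ≤ M * s ^ 2 := by
    rw [hM, div_mul_cancel₀ _ (by positivity)]
    exact hT0D
  have hMle : M + 1 ≤ ((65 * e ^ 2 * (2 ^ D) ^ 7 : ℕ) : ℝ) := by
    have h1 : M = 64 * (e : ℝ) ^ 2 * (D : ℝ) ^ 3 * 9 ^ D := by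
      rw [hM, hs]
      have : (9 : ℝ) ^ D = 3 ^ D * 3 ^ D := by
        rw [← mul_pow]
        norm_num
      rw [this]
      field_simp
      ring
    rw [h1]
    push_cast
    have h2 : (D : ℝ) ≤ 2 ^ D := by exact_mod_cast (Nat.lt_two_pow_self (n := D)).le
    have h3 : (9 : ℝ) ^ D ≤ (2 ^ D) ^ 4 := by
      rw [← pow_mul, mul_comm D 4, pow_mul]
      exact pow_le_pow_left₀ (by norm_num) (by norm_num) D
    have h4 : (D : ℝ) ^ 3 ≤ (2 ^ D) ^ 3 := pow_le_pow_left₀ (by positivity) h2 3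
    have h5 : (D : ℝ) ^ 3 * 9 ^ D ≤ (2 ^ D) ^ 7 := by
      calc (D : ℝ) ^ 3 * 9 ^ D ≤ (2 ^ D) ^ 3 * (2 ^ D) ^ 4 :=
            mul_le_mul h4 h3 (by positivity) (by positivity)
        _ = (2 ^ D) ^ 7 := by ring
    have h6 : (1 : ℝ) ≤ (2 ^ D) ^ 7 := one_le_pow₀ (one_le_pow₀ (by norm_num))
    have h7 : (1 : ℝ) ≤ (e : ℝ) ^ 2 := one_le_pow₀ he'
    have h8 : (1 : ℝ) ≤ (e : ℝ) ^ 2 * (2 ^ D) ^ 7 := by nlinarith
    have h9 : (e : ℝ) ^ 2 * ((D : ℝ) ^ 3 * 9 ^ D) ≤ (e : ℝ) ^ 2 * (2 ^ D) ^ 7 :=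
      mul_le_mul_of_nonneg_left h5 (by positivity)
    nlinarith
  have hqb : (16 * e * (65 * e ^ 2 * (2 ^ D) ^ 7) ^ k : ℕ) ≤ Q := q_big he hD
  have hMk : 16 * (e : ℝ) * (M + 1) ^ k ≤ Q := by
    have h1 : (M + 1) ^ k ≤ (((65 * e ^ 2 * (2 ^ D) ^ 7 : ℕ) : ℝ)) ^ k :=
      pow_le_pow_left₀ (by positivity) hMle k
    have h2 : 16 * (e : ℝ) * (((65 * e ^ 2 * (2 ^ D) ^ 7 : ℕ) : ℝ)) ^ k ≤ Q := by
      exact_mod_cast hqb
    have h3 : 16 * (e : ℝ) * (M + 1) ^ k ≤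
        16 * (e : ℝ) * (((65 * e ^ 2 * (2 ^ D) ^ 7 : ℕ) : ℝ)) ^ k :=
      mul_le_mul_of_nonneg_left h1 (by positivity)
    exact h3.trans h2
  have hθ : (M + 1) ^ k * (2 / Q) ≤ 1 / (8 * e) := by
    rw [mul_div_assoc', div_le_div_iff₀ hQ' (by positivity)]
    nlinarith
  have hMθ : M * Real.sqrt (2 / Q) ≤ 1 := by
    have h1 : M ^ 2 * (2 / Q) ≤ 1 := by
      have h2 : M ^ 2 ≤ (M + 1) ^ k := by
        calc M ^ 2 ≤ (M + 1) ^ 2 := pow_le_pow_left₀ hM0 (by linarith) 2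
          _ ≤ (M + 1) ^ k := pow_le_pow_right₀ (by linarith) (by omega)
      calc M ^ 2 * (2 / Q) ≤ (M + 1) ^ k * (2 / Q) := mul_le_mul_of_nonneg_right h2 (by positivity)
        _ ≤ 1 / (8 * e) := hθ
        _ ≤ 1 := by
            rw [div_le_one (by positivity)]
            linarith
    have h2 : M * Real.sqrt (2 / Q) = Real.sqrt (M ^ 2 * (2 / Q)) := by
      rw [Real.sqrt_mul (sq_nonneg M), Real.sqrt_sq hM0]
    rw [h2]
    exact Real.sqrt_le_one.2 h1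
  have h := residual (sf f) (sf_sq f) R D k (by omega) s (2 / Q) (2 * c) M hs0 (by positivity)
    hMs hq (fun i => 2 * bad σ f i) (fun i => mul_nonneg (by norm_num) (bad_nonneg σ f i))
    (fun i => infl_le σ f i) (by
      rw [← Finset.mul_sum]
      linarith)
  refine h.trans ?_
  have p1 : T0 / (D + 1) ≤ 1 / (8 * e) := by
    rw [div_le_div_iff₀ (by positivity) (by positivity)]
    linarith
  have p2 : 3 ^ D * (s * T0) ≤ 1 / (8 * e) := by
    have h1 : 3 ^ D * (s * T0) = T0 / (8 * e * D) := by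
      rw [hs]
      field_simp
    rw [h1, div_le_div_iff₀ (by positivity) (by positivity)]
    nlinarith
  have p3 : (M * Real.sqrt (2 / Q) + 2 * (2 * c)) / (k + 1) ≤ 1 / (16 * e) := by
    rw [div_le_div_iff₀ (by positivity) (by positivity)]
    have h1 : (k : ℝ) = 64 * (c + 1) * e := by
      rw [hk, kk]
      push_cast
      ring
    rw [h1]
    have h2 : (0 : ℝ) ≤ c := Nat.cast_nonneg c
    have h3 : (M * Real.sqrt (2 / Q) + 2 * (2 * c)) * (16 * (e : ℝ)) ≤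
        (1 + 2 * (2 * c)) * (16 * (e : ℝ)) :=
      mul_le_mul_of_nonneg_right (by linarith) (by positivity)
    refine h3.trans ?_
    nlinarith [mul_nonneg h2 (by positivity : (0 : ℝ) ≤ e)]
  have p4 := hθ
  have he0 : (0 : ℝ) < e := by linarith
  have h8 : (1 : ℝ) / (8 * e) = 1 / e / 8 := by field_simp
  have h16 : (1 : ℝ) / (16 * e) = 1 / e / 16 := by field_simp
  have h2e : (1 : ℝ) / (2 * e) = 1 / e / 2 := by field_simp
  have hinv : 0 < (1 : ℝ) / e := by positivity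
  rw [h2e]
  rw [h8] at p1 p2 p4
  rw [h16] at p3
  linarith

end Pool.Agent.Helper92.AM
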