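import Mathlib
import Pool.Graph.R_seed8.H637R3.UC.Bonami

set_option autoImplicit false
set_option linter.unusedSectionVars false

/-!
# Functions with small anti-monotone influence: the weight which is not seen by local tests
-/

namespace Pool.Agent.Helper92.AM

open Finset
open Pool.Agent.H637R3.UC

variable {α : Type*} [Fintype α] [DecidableEq α]

/-- Influence of `i`, as a sum of squares of coefficients. -/
noncomputable def infl (F : Finset α → ℝ) (i : α) : ℝ := ∑ S : Finset α, if i ∈ S then cf F S ^ 2 else 0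

/-- Total influence. -/
noncomputable def tinf (F : Finset α → ℝ) : ℝ := ∑ S : Finset α, (S.card : ℝ) * cf F S ^ 2

theorem infl_nonneg (F : Finset α → ℝ) (i : α) : 0 ≤ infl F i :=
  Finset.sum_nonneg fun S _ => by split_ifs <;> positivity

theorem tinf_nonneg (F : Finset α → ℝ) : 0 ≤ tinf F :=
  Finset.sum_nonneg fun S _ => by positivity

theorem sum_infl_subset (F : Finset α → ℝ) (J : Finset α) :
    ∑ i ∈ J, infl F i = ∑ S : Finset α, ((S ∩ J).card : ℝ) * cf F S ^ 2 := by
  unfold infl
  rw [Finset.sum_comm]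
  refine Finset.sum_congr rfl fun S _ => ?_
  rw [← Finset.sum_filter, Finset.sum_const, nsmul_eq_mul, Finset.filter_mem_eq_inter,
    Finset.inter_comm]

theorem sum_infl (F : Finset α → ℝ) : ∑ i, infl F i = tinf F := by
  rw [sum_infl_subset, tinf]
  simp

theorem av_dd_sq (F : Finset α → ℝ) (i : α) :
    av (fun A => dd i F A ^ 2) = 4 * infl F i := by
  rw [dd_sq, infl, Finset.mul_sum]
  refine Finset.sum_congr rfl fun S _ => ?_
  split_ifs <;> ring

/-- Low-degree weight on a variable of small influence. -/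
theorem low_infl (F : Finset α → ℝ) (hF : ∀ A, F A ^ 2 = 1) (i : α) (s : ℝ) (hs : 0 ≤ s)
    (h : infl F i ≤ s ^ 2) (D : ℕ) :
    ∑ S ∈ univ.filter (fun S : Finset α => i ∈ S ∧ S.card ≤ D), cf F S ^ 2 ≤
      3 ^ D * (s * infl F i) := by
  set g : Finset α → ℝ := fun A => 1 / 2 * dd i F A with hg
  have hF' : ∀ A, F A = 1 ∨ F A = -1 := fun A => by
    have h1 : (F A - 1) * (F A + 1) = 0 := by
      have := hF A
      linear_combination this
    rcases mul_eq_zero.1 h1 with h2 | h2
    · left; linarith
    · right; linarith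
  have hg3 : ∀ A, g A ^ 3 = g A := by
    intro A
    simp only [hg, dd, lo, hi]
    rcases hF' (A.erase i) with h1 | h1 <;> rcases hF' (insert i A) with h2 | h2 <;>
      rw [h1, h2] <;> norm_num
  have hcf : ∀ S, cf g S = if i ∈ S then 0 else cf F (insert i S) := by
    intro S
    have h1 : cf g S = 1 / 2 * cf (dd i F) S := by
      rw [cf_eq, cf_eq, ← av_mul]
      congr 1
      funext A
      simp only [hg]
      ring
    rw [h1, cf_dd]
    split_ifs <;> ring
  have hav : av (fun A => g A ^ 2) = infl F i := by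
    have h1 : (fun A => g A ^ 2) = fun A => 1 / 4 * dd i F A ^ 2 := by
      funext A
      simp only [hg]
      ring
    rw [h1, av_mul, av_dd_sq]
    ring
  have h1 := noisy_small g hg3
  rw [hav] at h1
  have h2 : ∑ S : Finset α, (1 / 3 : ℝ) ^ S.card * cf g S ^ 2 =
      ∑ S : Finset α, (if i ∈ S then 3 * ((1 / 3 : ℝ) ^ S.card * cf F S ^ 2) else 0) := by
    rw [← sum_insert_eq (fun S => 3 * ((1 / 3 : ℝ) ^ S.card * cf F S ^ 2)) i]
    refine Finset.sum_congr rfl (fun S _ => ?_)
    rw [hcf]
    by_cases h : i ∈ S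
    · simp [h]
    · rw [if_neg h, if_neg h, Finset.card_insert_of_notMem h, pow_succ]
      ring
  have hinf := infl_nonneg F i
  have h3 : ∑ S : Finset α, (1 / 3 : ℝ) ^ S.card * cf g S ^ 2 ≤ s * infl F i := by
    apply abs_le_of_sq_le_sq' _ (mul_nonneg hs hinf) |>.2
    refine h1.trans ?_
    calc infl F i ^ 3 = infl F i ^ 2 * infl F i := by ring
      _ ≤ infl F i ^ 2 * s ^ 2 := mul_le_mul_of_nonneg_left h (sq_nonneg _)
      _ = (s * infl F i) ^ 2 := by ring
  rw [h2] at h3
  have h4 : ∑ S ∈ univ.filter (fun S : Finset α => i ∈ S ∧ S.card ≤ D), cf F S ^ 2 ≤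
      ∑ S : Finset α, 3 ^ D * (if i ∈ S then 3 * ((1 / 3 : ℝ) ^ S.card * cf F S ^ 2) else 0) := by
    rw [Finset.sum_filter]
    refine Finset.sum_le_sum fun S _ => ?_
    by_cases h5 : i ∈ S
    · by_cases h6 : S.card ≤ D
      · rw [if_pos ⟨h5, h6⟩, if_pos h5]
        have h7 : (1 : ℝ) ≤ 3 ^ D * (1 / 3 : ℝ) ^ S.card := by
          rw [one_div, inv_pow, ← div_eq_mul_inv, le_div_iff₀ (by positivity), one_mul]
          exact pow_le_pow_right₀ (by norm_num) h6
        have h8 : 0 ≤ cf F S ^ 2 := sq_nonneg _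
        nlinarith
      · rw [if_neg (fun h => h6 h.2), if_pos h5]
        positivity
    · rw [if_neg (fun h => h5 h.1), if_neg h5]
      simp
  refine h4.trans ?_
  rw [← Finset.mul_sum]
  exact mul_le_mul_of_nonneg_left h3 (by positivity)

/-- Number of small subsets. -/
theorem card_small (J : Finset α) (k : ℕ) :
    (J.powerset.filter fun T => T.card ≤ k).card ≤ (J.card + 1) ^ k := by
  induction k with
  | zero =>
    have h : (J.powerset.filter fun T => T.card ≤ 0) ⊆ {∅} := by
      intro T hT
      simp only [Finset.mem_filter, Nat.le_zero, Finset.card_eq_zero] at hT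
      simp [hT.2]
    simpa using Finset.card_le_card h
  | succ k ih =>
    have h : (J.powerset.filter fun T => T.card ≤ k + 1) ⊆
        ((J.powerset.filter fun T => T.card ≤ k) ×ˢ (insertNone J)).image
          (fun p => p.2.elim p.1 (fun i => insert i p.1)) := by
      intro T hT
      simp only [Finset.mem_filter, Finset.mem_powerset] at hT
      rw [Finset.mem_image]
      rcases Finset.eq_empty_or_nonempty T with h0 | ⟨i, hi⟩
      · refine ⟨(T, none), ?_, rfl⟩
        simp [h0]
      · refine ⟨(T.erase i, some i), ?_, ?_⟩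
        · simp only [Finset.mem_product, Finset.mem_filter, Finset.mem_powerset,
            Finset.some_mem_insertNone]
          refine ⟨⟨(Finset.erase_subset _ _).trans hT.1, ?_⟩, hT.1 hi⟩
          rw [Finset.card_erase_of_mem hi]
          omega
        · simp [Finset.insert_erase hi]
    refine (Finset.card_le_card h).trans (Finset.card_image_le.trans ?_)
    rw [Finset.card_product, Finset.card_insertNone, pow_succ]
    exact Nat.mul_le_mul_right _ ih

/-- The main estimate: the weight which is neither low-degree on `R` nor detected. -/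
theorem residual (F : Finset α → ℝ) (hF : ∀ A, F A ^ 2 = 1) (R : Finset α) (D k : ℕ) (hk : 1 ≤ k)
    (s θ a M : ℝ) (hs : 0 < s) (hθ0 : 0 ≤ θ) (hM : tinf F ≤ M * s ^ 2)
    (hdet : ∀ T : Finset α, Disjoint T R → T.Nonempty → T.card ≤ k →
      ∑ U ∈ R.powerset.filter (fun U => U.card ≤ D), cf F (U ∪ T) ^ 2 ≤ θ)
    (anti : α → ℝ) (h0 : ∀ i, 0 ≤ anti i) (h1 : ∀ i, infl F i ≤ |cf F {i}| + 2 * anti i)
    (h2 : ∑ i, anti i ≤ a) :
    ∑ S ∈ univ.filter (fun S : Finset α => ¬ (S ⊆ R ∧ S.card ≤ D)), cf F S ^ 2 ≤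
      tinf F / (D + 1) + 3 ^ D * (s * tinf F) + (M * Real.sqrt θ + 2 * a) / (k + 1) +
        (M + 1) ^ k * θ := by
  classical
  set c : Finset α → ℝ := fun S => cf F S ^ 2 with hc
  have hc0 : ∀ S, 0 ≤ c S := fun S => sq_nonneg _
  set J : Finset α := univ.filter fun i => s ^ 2 < infl F i with hJ
  have hT0 := tinf_nonneg F
  have hs2 : 0 < s ^ 2 := by positivity
  have hJc : (J.card : ℝ) ≤ M := by
    have h3 : (J.card : ℝ) * s ^ 2 ≤ tinf F := by
      rw [← sum_infl]
      calc (J.card : ℝ) * s ^ 2 = ∑ i ∈ J, s ^ 2 := by simp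
        _ ≤ ∑ i ∈ J, infl F i := Finset.sum_le_sum fun i hi => by
            simp only [hJ, Finset.mem_filter] at hi
            exact hi.2.le
        _ ≤ ∑ i, infl F i := Finset.sum_le_sum_of_subset_of_nonneg (Finset.subset_univ _)
            fun i _ _ => infl_nonneg F i
    have h4 : (J.card : ℝ) * s ^ 2 ≤ M * s ^ 2 := h3.trans hM
    exact le_of_mul_le_mul_right h4 hs2
  have hM0 : 0 ≤ M := le_trans (Nat.cast_nonneg _) hJc
  have ha : 0 ≤ a := le_trans (Finset.sum_nonneg fun i _ => h0 i) h2
  -- the four parts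
  set P1 := univ.filter (fun S : Finset α => D + 1 ≤ S.card) with hP1
  set P2 := univ.filter (fun S : Finset α => S.card ≤ D ∧ ∃ i ∈ S, i ∉ J) with hP2
  set P3 := univ.filter (fun S : Finset α => k + 1 ≤ (S ∩ (J \ R)).card) with hP3
  set P4 := univ.filter (fun S : Finset α => S.card ≤ D ∧ S \ R ⊆ J ∧ (S \ R).Nonempty ∧
    (S \ R).card ≤ k) with hP4
  have hcover : univ.filter (fun S : Finset α => ¬ (S ⊆ R ∧ S.card ≤ D)) ⊆
      P1 ∪ (P2 ∪ (P3 ∪ P4)) := by
    intro S hS
    simp only [Finset.mem_filter, Finset.mem_univ, true_and] at hS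
    simp only [hP1, hP2, hP3, hP4, Finset.mem_union, Finset.mem_filter, Finset.mem_univ, true_and]
    by_cases h3 : S.card ≤ D
    · right
      by_cases h4 : ∃ i ∈ S, i ∉ J
      · exact Or.inl ⟨h3, h4⟩
      · right
        push Not at h4
        have h5 : S \ R ⊆ J := fun i hi => h4 i (Finset.mem_sdiff.1 hi).1
        have h6 : (S \ R).Nonempty := by
          rw [Finset.sdiff_nonempty]
          exact fun h => hS ⟨h, h3⟩
        by_cases h7 : (S \ R).card ≤ k
        · exact Or.inr ⟨h3, h5, h6, h7⟩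
        · left
          have h8 : S ∩ (J \ R) = S \ R := by
            ext i
            simp only [Finset.mem_inter, Finset.mem_sdiff]
            constructor
            · exact fun h => ⟨h.1, h.2.2⟩
            · exact fun h => ⟨h.1, h4 i h.1, h.2⟩
          rw [h8]
          omega
    · left
      omega
  have e1 : ∑ S ∈ P1, c S ≤ tinf F / (D + 1) := by
    rw [le_div_iff₀ (by positivity), Finset.sum_mul]
    unfold tinf
    refine le_trans (Finset.sum_le_sum (g := fun S => (S.card : ℝ) * cf F S ^ 2) fun S hS => ?_)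
      (Finset.sum_le_sum_of_subset_of_nonneg (Finset.subset_univ _) fun S _ _ => by positivity)
    simp only [hP1, Finset.mem_filter, Finset.mem_univ, true_and] at hS
    have h3 : ((D : ℝ) + 1) ≤ S.card := by exact_mod_cast hS
    have h4 := hc0 S
    simp only [hc] at h4 ⊢
    nlinarith
  have e2 : ∑ S ∈ P2, c S ≤ 3 ^ D * (s * tinf F) := by
    have h3 : ∑ S ∈ P2, c S ≤ ∑ i ∈ univ.filter (fun i => i ∉ J),
        ∑ S ∈ univ.filter (fun S : Finset α => i ∈ S ∧ S.card ≤ D), c S := by
      simp_rw [Finset.sum_filter]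
      have h4 : ∀ i : α, (if i ∉ J then ∑ S : Finset α, (if i ∈ S ∧ S.card ≤ D then c S else 0)
          else 0) = ∑ S : Finset α, (if i ∉ J ∧ i ∈ S ∧ S.card ≤ D then c S else 0) := by
        intro i
        by_cases h : i ∉ J
        · simp [h]
        · simp [h]
      simp_rw [h4]
      rw [Finset.sum_comm]
      rw [hP2, Finset.sum_filter]
      refine Finset.sum_le_sum fun S _ => ?_
      split_ifs with h5
      · obtain ⟨h6, i, hi, hiJ⟩ := h5
        refine le_trans ?_ (Finset.single_le_sum (f := fun i => if i ∉ J ∧ i ∈ S ∧ S.card ≤ D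
          then c S else 0) (fun j _ => ?_) (Finset.mem_univ i))
        · simp [hi, hiJ, h6]
        · split_ifs
          · exact hc0 S
          · exact le_rfl
      · exact Finset.sum_nonneg fun j _ => by
          split_ifs
          · exact hc0 S
          · exact le_rfl
    refine h3.trans ?_
    have h4 : ∀ i ∈ univ.filter (fun i => i ∉ J),
        ∑ S ∈ univ.filter (fun S : Finset α => i ∈ S ∧ S.card ≤ D), c S ≤
          3 ^ D * (s * infl F i) := by
      intro i hi
      simp only [hJ, Finset.mem_filter, Finset.mem_univ, true_and, not_lt] at hi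
      exact low_infl F hF i s hs.le hi D
    refine (Finset.sum_le_sum h4).trans ?_
    rw [← sum_infl, Finset.mul_sum, Finset.mul_sum]
    exact Finset.sum_le_sum_of_subset_of_nonneg (Finset.subset_univ _) fun i _ _ =>
      mul_nonneg (by positivity) (mul_nonneg hs.le (infl_nonneg F i))
  have hsing : ∀ i ∈ J \ R, |cf F {i}| ≤ Real.sqrt θ := by
    intro i hi
    refine Real.abs_le_sqrt ?_
    have h3 := hdet {i} (by
      rw [Finset.disjoint_singleton_left]
      exact (Finset.mem_sdiff.1 hi).2) (by simp) (by simpa using hk)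
    refine le_trans ?_ h3
    have h4 : (∅ : Finset α) ∈ R.powerset.filter (fun U => U.card ≤ D) := by simp
    refine le_trans (le_of_eq ?_) (Finset.single_le_sum (f := fun U => cf F (U ∪ {i}) ^ 2)
      (fun U _ => sq_nonneg _) h4)
    simp
  have e3 : ∑ S ∈ P3, c S ≤ (M * Real.sqrt θ + 2 * a) / (k + 1) := by
    rw [le_div_iff₀ (by positivity), Finset.sum_mul]
    have h3 : ∑ S ∈ P3, c S * ((k : ℝ) + 1) ≤ ∑ i ∈ J \ R, infl F i := by
      rw [sum_infl_subset]
      refine le_trans (Finset.sum_le_sum (g := fun S => ((S ∩ (J \ R)).card : ℝ) * cf F S ^ 2)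
        fun S hS => ?_)
        (Finset.sum_le_sum_of_subset_of_nonneg (Finset.subset_univ _) fun S _ _ => by positivity)
      simp only [hP3, Finset.mem_filter, Finset.mem_univ, true_and] at hS
      have h3 : ((k : ℝ) + 1) ≤ (S ∩ (J \ R)).card := by exact_mod_cast hS
      have h4 := hc0 S
      simp only [hc] at h4 ⊢
      nlinarith
    refine h3.trans ?_
    have h4 : ∑ i ∈ J \ R, infl F i ≤ ∑ i ∈ J \ R, (Real.sqrt θ + 2 * anti i) := by
      refine Finset.sum_le_sum fun i hi => (h1 i).trans ?_
      have := hsing i hi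
      linarith
    refine h4.trans ?_
    rw [Finset.sum_add_distrib, Finset.sum_const, nsmul_eq_mul, ← Finset.mul_sum]
    have h5 : ∑ i ∈ J \ R, anti i ≤ a :=
      (Finset.sum_le_sum_of_subset_of_nonneg (Finset.subset_univ _) fun i _ _ => h0 i).trans h2
    have h6 : ((J \ R).card : ℝ) ≤ M := by
      refine le_trans ?_ hJc
      exact_mod_cast Finset.card_le_card Finset.sdiff_subset
    have h7 := Real.sqrt_nonneg θ
    have h8 : ((J \ R).card : ℝ) * Real.sqrt θ ≤ M * Real.sqrt θ :=
      mul_le_mul_of_nonneg_right h6 h7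
    linarith
  have e4 : ∑ S ∈ P4, c S ≤ (M + 1) ^ k * θ := by
    have h3 : ∑ S ∈ P4, c S ≤ ∑ T ∈ (J \ R).powerset.filter (fun T => T.Nonempty ∧ T.card ≤ k),
        ∑ U ∈ R.powerset.filter (fun U => U.card ≤ D), c (U ∪ T) := by
      rw [← Finset.sum_product']
      refine le_trans (le_of_eq ?_) (Finset.sum_le_sum_of_subset_of_nonneg
        (s := P4.image fun S => (S \ R, S ∩ R)) ?_ ?_)
      · rw [Finset.sum_image]
        · refine Finset.sum_congr rfl fun S _ => ?_
          congr 1
          ext i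
          simp only [Finset.mem_union, Finset.mem_inter, Finset.mem_sdiff]
          tauto
        · intro S _ S' _ h
          simp only [Prod.mk.injEq] at h
          ext i
          have h5 := congrArg (fun X => i ∈ X) h.1
          have h6 := congrArg (fun X => i ∈ X) h.2
          simp only [Finset.mem_inter, Finset.mem_sdiff, eq_iff_iff] at h5 h6
          tauto
      · intro p hp
        rw [Finset.mem_image] at hp
        obtain ⟨S, hS, rfl⟩ := hp
        simp only [hP4, Finset.mem_filter, Finset.mem_univ, true_and] at hS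
        simp only [Finset.mem_product, Finset.mem_filter, Finset.mem_powerset]
        refine ⟨⟨?_, hS.2.2.1, hS.2.2.2⟩, Finset.inter_subset_right, ?_⟩
        · intro i hi
          exact Finset.mem_sdiff.2 ⟨hS.2.1 hi, (Finset.mem_sdiff.1 hi).2⟩
        · exact (Finset.card_le_card Finset.inter_subset_left).trans hS.1
      · intro p _ _
        exact hc0 _
    refine h3.trans ?_
    have h4 : ∀ T ∈ (J \ R).powerset.filter (fun T => T.Nonempty ∧ T.card ≤ k),
        ∑ U ∈ R.powerset.filter (fun U => U.card ≤ D), c (U ∪ T) ≤ θ := by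
      intro T hT
      simp only [Finset.mem_filter, Finset.mem_powerset] at hT
      refine hdet T ?_ hT.2.1 hT.2.2
      rw [Finset.disjoint_left]
      exact fun i hi => (Finset.mem_sdiff.1 (hT.1 hi)).2
    refine (Finset.sum_le_sum h4).trans ?_
    rw [Finset.sum_const, nsmul_eq_mul]
    refine mul_le_mul_of_nonneg_right ?_ hθ0
    have h5 : ((J \ R).powerset.filter (fun T => T.Nonempty ∧ T.card ≤ k)).card ≤
        (J.card + 1) ^ k := by
      refine le_trans (Finset.card_le_card ?_) (card_small J k)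
      intro T hT
      simp only [Finset.mem_filter, Finset.mem_powerset] at hT ⊢
      exact ⟨hT.1.trans Finset.sdiff_subset, hT.2.2⟩
    calc (((J \ R).powerset.filter (fun T => T.Nonempty ∧ T.card ≤ k)).card : ℝ)
        ≤ ((J.card : ℝ) + 1) ^ k := by exact_mod_cast h5
      _ ≤ (M + 1) ^ k := by gcongr
  calc ∑ S ∈ univ.filter (fun S : Finset α => ¬ (S ⊆ R ∧ S.card ≤ D)), c S
      ≤ ∑ S ∈ P1 ∪ (P2 ∪ (P3 ∪ P4)), c S :=
        Finset.sum_le_sum_of_subset_of_nonneg hcover fun S _ _ => hc0 S
    _ ≤ ∑ S ∈ P1, c S + (∑ S ∈ P2, c S + (∑ S ∈ P3, c S + ∑ S ∈ P4, c S)) := by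
        have u : ∀ X Y : Finset (Finset α), ∑ S ∈ X ∪ Y, c S ≤ ∑ S ∈ X, c S + ∑ S ∈ Y, c S := by
          intro X Y
          rw [← Finset.sum_union_inter]
          have := Finset.sum_nonneg (s := X ∩ Y) (f := c) fun S _ => hc0 S
          linarith
        have u1 := u P1 (P2 ∪ (P3 ∪ P4))
        have u2 := u P2 (P3 ∪ P4)
        have u3 := u P3 P4
        linarith
    _ ≤ _ := by linarith

end Pool.Agent.Helper92.AM
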